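import Mathlib

/-!
# Strassen's duality for preordered semirings, and numerical invariants of finite algebras

Statements `S_X` with proofs in the docstrings. Everything is over Mathlib.
-/

set_option autoImplicit false

namespace Pool.Agent.H858.AS

open Filter Topology TensorProduct PowerSeries

universe u

/-- A Strassen preorder on a commutative semiring. -/
structure SPre {S : Type u} [CommSemiring S] (P : S → S → Prop) : Prop where
  refl : ∀ a, P a a
  trans : ∀ a b c, P a b → P b c → P a c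
  add : ∀ a b c, P a b → P (a + c) (b + c)
  mul : ∀ a b c, P a b → P (a * c) (b * c)
  zero : ∀ a, P 0 a
  nat : ∀ n m : ℕ, P (n : S) (m : S) → n ≤ m
  arch : ∀ a b, b ≠ 0 → ∃ r : ℕ, P a ((r : S) * b)

/-- The points of the asymptotic spectrum. -/
structure IsPt {S : Type u} [CommSemiring S] (P : S → S → Prop) (φ : S → ℝ) : Prop where
  nonneg : ∀ a, 0 ≤ φ a
  one : φ 1 = 1
  zero : φ 0 = 0
  add : ∀ a b, φ (a + b) = φ a + φ b
  mul : ∀ a b, φ (a * b) = φ a * φ b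
  mono : ∀ a b, P a b → φ a ≤ φ b

/-- Lemma A. Proof: put `X = 1 + s a`, `Y = s b`. From the hypothesis and `m₀ + 1 ≤ n₀` we have
`X + m₀ ≤ Y + m₀`, hence (induction) `n X + m₀ ≤ n Y + m₀` for all `n`. `Y ≠ 0` since otherwise
`1 + m₀ ≤ m₀`. So `m₀ ≤ r Y` and `n X ≤ (n + r) Y`, so `n s a ≤ (n + r) s b` for all `n`; here
`s ≠ 0`. By induction on `N`: `n^N s a^N ≤ (n + r)^N s b^N`. With `1 ≤ t s`, `s ≤ q`:
`n^N a^N ≤ t q (n + r)^N b^N`, so `C = t q`. -/
def S_A : Prop := ∀ (S : Type 1) [CommSemiring S] (Q : S → S → Prop), SPre Q →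
  ∀ (n₀ m₀ : ℕ) (s a b : S), m₀ < n₀ → Q ((n₀ : S) + s * a) ((m₀ : S) + s * b) →
    ∃ C r : ℕ, ∀ n N : ℕ, Q ((n : S) ^ N * a ^ N) ((C : S) * ((n + r : ℕ) : S) ^ N * b ^ N)

/-- Lemma B (extension). `Q' x y := ∃ s, Q (x + s a) (y + s b)`. -/
def S_B : Prop := ∀ (S : Type 1) [CommSemiring S] (Q : S → S → Prop), SPre Q →
  ∀ (a b : S), (∀ (n m : ℕ) (s : S), Q ((n : S) + s * a) ((m : S) + s * b) → n ≤ m) →
    ∃ Q' : S → S → Prop, SPre Q' ∧ (∀ x y, Q x y → Q' x y) ∧ Q' b a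

/-- Lemma C (Zorn). The union of a nonempty chain of Strassen preorders is one. -/
def S_C : Prop := ∀ (S : Type 1) [CommSemiring S] (P : S → S → Prop), SPre P →
  ∃ Q : S → S → Prop, SPre Q ∧ (∀ x y, P x y → Q x y) ∧
    ∀ Q' : S → S → Prop, SPre Q' → (∀ x y, Q x y → Q' x y) → ∀ x y, Q' x y → Q x y

/-- Lemma D. If `Q` is almost total in the sense of `htot` then it has a point.
Proof: `φ a = inf {r / s : s ≥ 1, Q (s a) r}` (nonempty by `arch a 1`; `(1 : S) ≠ 0` by `nat 1 0`).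
(1) If `Q r (s a)`, `s ≥ 1`, then `r / s ≤ φ a` (from `Q (s' a) r'`: `s' r ≤ s' s a ≤ s r'`, `nat`).
(2) For `ε > 0` there are `r, s` with `s ≥ 1`, `Q r (s a)` and `φ a - ε ≤ r / s`: if `φ a ≤ ε` take
`r = 0`. Otherwise take rationals `φ a - ε ≤ p / s < p₁ / s₁ < φ a`. If not `Q p (s a)` then
`htot (s a) p` gives `C, r₀` with `(n s)^N a^N ≤ C ((n + r₀) p)^N` for all `n, N`. Not `Q (s₁ a) p₁`
since `p₁ / s₁ < φ a`, so `htot p₁ (s₁ a)` gives `C', r₁` with
`(n p₁)^N ≤ C' ((n + r₁) s₁)^N a^N`. Multiply the second with `(n s)^N` and use the first, then `nat`: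
`(n² s p₁)^N ≤ C C' ((n + r₀) (n + r₁) s₁ p)^N` for all `n, N`. `N → ∞`:
`n² s p₁ ≤ (n + r₀) (n + r₁) s₁ p` for all `n`; `n → ∞`: `s p₁ ≤ s₁ p`, a contradiction.
(3) `φ` is additive and multiplicative: `≤` from upper approximations (`s a ≤ r`, `s' b ≤ r'` imply
`s s' (a + b) ≤ s' r + s r'` and `s s' a b ≤ r r'`), `≥` from the lower ones in (2) together with
(1). -/
def S_D : Prop := ∀ (S : Type 1) [CommSemiring S] (Q : S → S → Prop), SPre Q →
  (∀ a b : S, Q b a ∨ ∃ C r : ℕ, ∀ n N : ℕ,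
    Q ((n : S) ^ N * a ^ N) ((C : S) * ((n + r : ℕ) : S) ^ N * b ^ N)) → ∃ φ : S → ℝ, IsPt Q φ

/-- Lemma F (compactness). Use the ultrafilter `Filter.hyperfilter ℕ`; `f j x` is in `[0, r]` if
`P x r`, `r : ℕ` (exists by `arch x 1`). -/
def S_F : Prop := ∀ (S : Type 1) [CommSemiring S] (P : S → S → Prop), SPre P →
  ∀ f : ℕ → S → ℝ, (∀ j, IsPt P (f j)) →
    ∃ φ : S → ℝ, IsPt P φ ∧ ∀ x, Tendsto (fun j => f j x) (hyperfilter ℕ : Filter ℕ) (𝓝 (φ x))

/-- Lemma E. Proof: put `y M = ⌈(x / c)^M⌉`. From `c a^n ≤ x b^n`: `c^M a^(n M) ≤ x^M b^(n M)`, and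
`x^M ≤ c^M y M`, so `c^M a^(n M) ≤ c^M (y M) b^(n M)`; iterating `c^M a^(n M K) ≤ c^M (y M)^K b^(n M K)`
so `a^(n M K) ≤ c^M (y M)^K b^(n M K)` for all `K`. `y M ≤ μ^(n M) + 1 ≤ ν'^(n M)` for a large `M`
(`μ < ν' < ν`, `1 ≤ μ`). For `j < n M` choose `r j` with `a^j ≤ r j b^j` (`b^j ≠ 0`: since `b ≠ 0` we
have `1 ≤ t b` so `1 ≤ t^j b^j` and `b^j = 0` would contradict `nat 1 0`). For `l = n M K + j` we get
`a^l ≤ (r j) c^M (y M)^K b^l`, and `(r j) c^M ν'^(n M K) ≤ ν^l` for large `l`. -/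
def S_E : Prop := ∀ (S : Type 1) [CommSemiring S] (P : S → S → Prop), SPre P →
  ∀ (a b : S) (n c x : ℕ) (μ ν : ℝ), b ≠ 0 → 1 ≤ n → 1 ≤ c → 1 ≤ μ → μ < ν →
    (x : ℝ) ≤ μ ^ n * c → P ((c : S) * a ^ n) ((x : S) * b ^ n) →
    ∃ L : ℕ, ∀ l ≥ L, ∃ z : ℕ, (z : ℝ) ≤ ν ^ l ∧ P (a ^ l) ((z : S) * b ^ l)

/-- `Spec A₀` is a degeneration of `Spec A`. -/
def IsDegeneration (k : Type) [Field k] (A A₀ : Type) [CommRing A] [Algebra k A] [CommRing A₀]
    [Algebra k A₀] : Prop :=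
  ∃ (𝒜 : Type) (_ : CommRing 𝒜) (_ : Algebra k⟦X⟧ 𝒜), Module.Finite k⟦X⟧ 𝒜 ∧
    Module.Free k⟦X⟧ 𝒜 ∧
    Nonempty ((LaurentSeries k ⊗[k⟦X⟧] 𝒜) ≃ₐ[LaurentSeries k]
      (LaurentSeries k ⊗[k⟦X⟧] (k⟦X⟧ ⊗[k] A))) ∧
    ∃ π : 𝒜 →+* A₀, Function.Surjective π ∧
      (∀ c : k⟦X⟧, π (algebraMap k⟦X⟧ 𝒜 c) = algebraMap k A₀ (PowerSeries.constantCoeff c)) ∧
      ∀ x, π x = 0 → ∃ y, x = (PowerSeries.X : k⟦X⟧) • y

/-- The number of points of `Spec A` (`k` algebraically closed, `A` finite). -/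
noncomputable def numPts (k : Type) [Field k] (A : Type) [CommRing A] [Algebra k A] : ℕ :=
  Nat.card (A →ₐ[k] k)

/-- The dimension of the space spanned by the `q`-th powers of the elements of `A`. -/
noncomputable def powDim (k : Type) [Field k] (q : ℕ) (A : Type) [CommRing A] [Algebra k A] : ℕ :=
  Module.finrank k (Submodule.span k (Set.range fun a : A => a ^ q))

/-- Points of disjoint unions and products: `(A × B →ₐ k) ≃ (A →ₐ k) ⊕ (B →ₐ k)` (a homomorphism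
maps one of the idempotents `(1, 0)`, `(0, 1)` to `1` and the other to `0`) and
`(A ⊗ B →ₐ k) ≃ (A →ₐ k) × (B →ₐ k)` (universal property). The sets are finite. -/
def S_P1 : Prop := ∀ (k : Type) [Field k] [IsAlgClosed k] (A B : Type) [CommRing A] [Algebra k A]
  [Module.Finite k A] [CommRing B] [Algebra k B] [Module.Finite k B],
  numPts k (A × B) = numPts k A + numPts k B ∧ numPts k (A ⊗[k] B) = numPts k A * numPts k B ∧
  numPts k A ≤ Module.finrank k A ∧
  (∀ f : B →ₐ[k] A, Function.Surjective f → numPts k A ≤ numPts k B) ∧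
  (∀ f : A →ₐ[k] B, Function.Injective f → numPts k A ≤ numPts k B) ∧
  ∃ f : A →ₐ[k] (Fin (numPts k A) → k), Function.Surjective f

/-- Points of degenerations. Proof: with `m = numPts A₀` there are `m` nonzero orthogonal
idempotents in `A₀`; they lift to orthogonal idempotents of the finite `k⟦X⟧`-algebra `𝒜` (it is
`X`-adically complete; idempotents lift modulo `X 𝒜 = ker π`), which are nonzero in the generic
fibre since `𝒜` is free. So `k((X)) ⊗ A` has `m` nonzero orthogonal idempotents. But `k((X)) ⊗ A` is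
the product of `numPts A` local rings (for `A` local, `A = k ⊕ 𝔪` with `𝔪` nilpotent, so
`k((X)) ⊗ A` has the nilpotent ideal `k((X)) ⊗ 𝔪` with quotient the field `k((X))`), hence
`m ≤ numPts A`. Alternative to the last step: the nilradical `N` of `A` satisfies
`A / N ≃ k ^ (numPts A)`; idempotents of `k((X)) ⊗ A` inject (orthogonal nonzero ones stay nonzero)
into `k((X)) ⊗ (A / N) = k((X)) ^ (numPts A)` because `k((X)) ⊗ N` is nil; `m` nonzero orthogonal
idempotents of `K ^ r` are linearly independent so `m ≤ r`. -/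
def S_P2 : Prop := ∀ (k : Type) [Field k] [IsAlgClosed k] (A A₀ : Type) [CommRing A] [Algebra k A]
  [Module.Finite k A] [CommRing A₀] [Algebra k A₀] [Module.Finite k A₀],
  IsDegeneration k A A₀ → numPts k A₀ ≤ numPts k A

/-- `q`-th powers, `q = p^e` a power of the characteristic: the set of the `q`-th powers is a
subspace (as `k` is perfect), the image of the Frobenius; it is multiplicative. -/
def S_F1 : Prop := ∀ (k : Type) [Field k] [IsAlgClosed k] (p e : ℕ) [Fact p.Prime] [CharP k p]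
  (A B : Type) [CommRing A] [Algebra k A] [Module.Finite k A] [CommRing B] [Algebra k B]
  [Module.Finite k B],
  powDim k (p ^ e) k = 1 ∧
  powDim k (p ^ e) (A × B) = powDim k (p ^ e) A + powDim k (p ^ e) B ∧
  powDim k (p ^ e) (A ⊗[k] B) = powDim k (p ^ e) A * powDim k (p ^ e) B ∧
  powDim k (p ^ e) A ≤ Module.finrank k A ∧
  (∀ f : B →ₐ[k] A, Function.Surjective f → powDim k (p ^ e) A ≤ powDim k (p ^ e) B) ∧
  (∀ f : A →ₐ[k] B, Function.Injective f → powDim k (p ^ e) A ≤ powDim k (p ^ e) B)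

/-- Proof: let `d = powDim A₀`. There are `x_1, …, x_d ∈ 𝒜` such that the `π(x_i)^q` are linearly
independent over `k`. Then the `x_i^q` are linearly independent over `k⟦X⟧` in `𝒜` (divide a relation
by a power of `X` so that it becomes nontrivial modulo `X`), hence over `K = k((X))` in
`K ⊗ 𝒜 ≃ K ⊗ A`. The `K`-span of the `q`-th powers in `K ⊗ A` is `K ⊗` (the span `W` of the `q`-th
powers in `A`): `(∑ c_i ⊗ a_i)^q = ∑ c_i^q ⊗ a_i^q`; its dimension is `dim_k W = powDim A`. -/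
def S_F2 : Prop := ∀ (k : Type) [Field k] [IsAlgClosed k] (p e : ℕ) [Fact p.Prime] [CharP k p]
  (A A₀ : Type) [CommRing A] [Algebra k A] [Module.Finite k A] [CommRing A₀] [Algebra k A₀]
  [Module.Finite k A₀],
  IsDegeneration k A A₀ → powDim k (p ^ e) A₀ ≤ powDim k (p ^ e) A

/-- `powDim` of truncated polynomial rings, `q = p^e`: `⌈n / q⌉`. -/
def S_F3 : Prop := ∀ (k : Type) [Field k] [IsAlgClosed k] (p e n : ℕ) [Fact p.Prime] [CharP k p],
  powDim k (p ^ e) (Polynomial k ⧸ Ideal.span {(Polynomial.X : Polynomial k) ^ n}) =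
    (n + p ^ e - 1) / p ^ e

end Pool.Agent.H858.AS
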