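import Pool.Agent.H858.AS.Spec

/-!
# Strassen's duality
-/

set_option autoImplicit false

namespace Pool.Agent.H858.AS

open Filter Topology

theorem SPre.natle {S : Type 1} [CommSemiring S] {P : S → S → Prop} (h : SPre P) {n m : ℕ}
    (hnm : n ≤ m) : P (n : S) (m : S) := by
  obtain ⟨d, rfl⟩ := Nat.exists_eq_add_of_le hnm
  have h1 := h.add _ _ (n : S) (h.zero (d : S))
  rw [zero_add, add_comm] at h1
  rwa [Nat.cast_add]

theorem IsPt.sub {S : Type 1} [CommSemiring S] {P Q : S → S → Prop} {φ : S → ℝ} (h : IsPt Q φ)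
    (hPQ : ∀ x y, P x y → Q x y) : IsPt P φ :=
  ⟨h.nonneg, h.one, h.zero, h.add, h.mul, fun a b hab => h.mono a b (hPQ a b hab)⟩

theorem IsPt.nat {S : Type 1} [CommSemiring S] {P : S → S → Prop} {φ : S → ℝ} (h : IsPt P φ)
    (n : ℕ) : φ (n : S) = n := by
  induction n with
  | zero => rw [Nat.cast_zero, h.zero, Nat.cast_zero]
  | succ n ih => rw [Nat.cast_succ, h.add, ih, h.one, Nat.cast_succ]

theorem IsPt.pow {S : Type 1} [CommSemiring S] {P : S → S → Prop} {φ : S → ℝ} (h : IsPt P φ)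
    (a : S) (n : ℕ) : φ (a ^ n) = φ a ^ n := by
  induction n with
  | zero => rw [pow_zero, pow_zero, h.one]
  | succ n ih => rw [pow_succ, pow_succ, h.mul, ih]

/-- Every Strassen preorder has a point. -/
theorem exists_pt (hA : S_A) (hB : S_B) (hC : S_C) (hD : S_D) {S : Type 1} [CommSemiring S]
    {P : S → S → Prop} (h : SPre P) : ∃ φ : S → ℝ, IsPt P φ := by
  obtain ⟨Q, hQ, hPQ, hmax⟩ := hC S P h
  obtain ⟨φ, hφ⟩ := hD S Q hQ (by
    intro a b
    by_cases hab : ∀ (n m : ℕ) (s : S), Q ((n : S) + s * a) ((m : S) + s * b) → n ≤ m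
    · obtain ⟨Q', h1, h2, h3⟩ := hB S Q hQ a b hab
      exact Or.inl (hmax Q' h1 h2 _ _ h3)
    · push Not at hab
      obtain ⟨n, m, s, h1, h2⟩ := hab
      exact Or.inr (hA S Q hQ n m s a b h2 h1))
  exact ⟨φ, hφ.sub hPQ⟩

theorem le_of_pow_bound {x y C : ℝ} (hy : 0 ≤ y)
    (h : ∀ N : ℕ, 1 ≤ N → x ^ N ≤ C * y ^ N) : x ≤ y := by
  by_contra hxy
  push Not at hxy
  rcases hy.eq_or_lt with hy0 | hy0
  · have h1 := h 1 le_rfl
    rw [← hy0, pow_one, pow_one, mul_zero] at h1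
    linarith
  have h1 : 1 < x / y := by rwa [one_lt_div hy0]
  obtain ⟨N, hN⟩ := pow_unbounded_of_one_lt (max C 1) h1
  have hN1 : 1 ≤ N := by
    rcases Nat.eq_zero_or_pos N with h0 | h0
    · rw [h0, pow_zero] at hN
      exact absurd (le_max_right C 1) (not_le.mpr hN)
    · exact h0
  have h2 := h N hN1
  rw [div_pow, lt_div_iff₀ (pow_pos hy0 N)] at hN
  have h3 : C * y ^ N ≤ max C 1 * y ^ N :=
    mul_le_mul_of_nonneg_right (le_max_left _ _) (pow_pos hy0 N).le
  linarith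

/-- The main theorem. -/
theorem duality (hA : S_A) (hB : S_B) (hC : S_C) (hD : S_D) (hF : S_F) {S : Type 1}
    [CommSemiring S] {P : S → S → Prop} (h : SPre P) (a b : S) (lam : ℝ) (hlam : 0 ≤ lam)
    (hyp : ∀ n c x : ℕ, 1 ≤ n → 1 ≤ c → P ((c : S) * a ^ n) ((x : S) * b ^ n) → lam ^ n * c ≤ x) :
    ∃ φ : S → ℝ, IsPt P φ ∧ lam * φ b ≤ φ a := by
  -- rational approximations
  have step : ∀ u v : ℕ, 1 ≤ v → (u : ℝ) < lam * v → ∃ φ : S → ℝ, IsPt P φ ∧
      (u : ℝ) * φ b ≤ v * φ a := by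
    intro u v hv huv
    have key : ∀ (n m : ℕ) (s : S), P ((n : S) + s * ((v : S) * a)) ((m : S) + s * ((u : S) * b)) →
        n ≤ m := by
      by_contra hcon
      push Not at hcon
      obtain ⟨n₀, m₀, s, h1, h2⟩ := hcon
      obtain ⟨C, r, hr⟩ := hA S P h n₀ m₀ s _ _ h2 h1
      have h3 : ∀ n : ℕ, 1 ≤ n → lam * v * n ≤ (n + r) * u := by
        intro n hn
        refine le_of_pow_bound (C := C) (by positivity) fun N hN => ?_
        have h4 := hr n N
        have h5 := hyp N ((n * v) ^ N) (C * ((n + r) * u) ^ N) hN (by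
          exact Nat.one_le_pow _ _ (Nat.mul_pos hn hv)) (by
          have e1 : (((n * v) ^ N : ℕ) : S) * a ^ N = (n : S) ^ N * ((v : S) * a) ^ N := by
            push_cast
            ring
          have e2 : ((C * ((n + r) * u) ^ N : ℕ) : S) * b ^ N =
              (C : S) * ((n + r : ℕ) : S) ^ N * ((u : S) * b) ^ N := by
            push_cast
            rw [mul_pow, mul_pow]
            ring
          rw [e1, e2]
          exact h4)
        push_cast at h5
        calc (lam * v * n) ^ N = lam ^ N * (n * v) ^ N := by ring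
          _ ≤ C * ((n + r) * u) ^ N := h5
      obtain ⟨n, hn⟩ := exists_nat_gt ((r : ℝ) * u / (lam * v - u))
      have hpos : 0 < lam * v - u := by linarith
      rw [div_lt_iff₀ hpos] at hn
      have h6 := h3 (n + 1) (by omega)
      push_cast at h6
      nlinarith
    obtain ⟨Q', h1, h2, h3⟩ := hB S P h _ _ key
    obtain ⟨φ, hφ⟩ := exists_pt hA hB hC hD h1
    refine ⟨φ, hφ.sub h2, ?_⟩
    have h4 := hφ.mono _ _ h3
    rwa [hφ.mul, hφ.mul, hφ.nat, hφ.nat] at h4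
  rcases hlam.eq_or_lt with hl0 | hl0
  · obtain ⟨φ, hφ⟩ := exists_pt hA hB hC hD h
    refine ⟨φ, hφ, ?_⟩
    rw [← hl0, zero_mul]
    exact hφ.nonneg a
  have step2 : ∀ j : ℕ, ∃ φ : S → ℝ, IsPt P φ ∧ (lam - 2 / (j + 1)) * φ b ≤ φ a := by
    intro j
    have hv : (0 : ℝ) < (j : ℝ) + 1 := by positivity
    by_cases hneg : lam * (j + 1) ≤ 1
    · obtain ⟨φ, hφ⟩ := exists_pt hA hB hC hD h
      refine ⟨φ, hφ, ?_⟩
      have h1 : lam - 2 / ((j : ℝ) + 1) ≤ 0 := by
        rw [sub_nonpos, le_div_iff₀ hv]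
        linarith
      exact (mul_nonpos_of_nonpos_of_nonneg h1 (hφ.nonneg b)).trans (hφ.nonneg a)
    · push Not at hneg
      set u : ℕ := ⌈lam * (j + 1)⌉₊ - 1 with hu
      have hc1 : 1 ≤ ⌈lam * ((j : ℝ) + 1)⌉₊ := Nat.one_le_iff_ne_zero.mpr (by
        rw [Ne, Nat.ceil_eq_zero, not_le]
        positivity)
      have hu1 : ((u : ℕ) : ℝ) = (⌈lam * ((j : ℝ) + 1)⌉₊ : ℝ) - 1 := by
        rw [hu, Nat.cast_sub hc1, Nat.cast_one]
      have h1 : (u : ℝ) < lam * ((j + 1 : ℕ) : ℝ) := by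
        rw [hu1]
        push_cast
        linarith [Nat.ceil_lt_add_one (a := lam * ((j : ℝ) + 1)) (by positivity)]
      obtain ⟨φ, hφ, h2⟩ := step u (j + 1) (by omega) h1
      refine ⟨φ, hφ, ?_⟩
      have h3 : lam * ((j : ℝ) + 1) - 1 ≤ u := by
        rw [hu1]
        linarith [Nat.le_ceil (lam * ((j : ℝ) + 1))]
      push_cast at h2
      have h4 : (lam * ((j : ℝ) + 1) - 1) * φ b ≤ ((j : ℝ) + 1) * φ a :=
        (mul_le_mul_of_nonneg_right h3 (hφ.nonneg b)).trans h2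
      have h5 : (lam - 2 / ((j : ℝ) + 1)) * φ b ≤ (lam - 1 / ((j : ℝ) + 1)) * φ b := by
        refine mul_le_mul_of_nonneg_right ?_ (hφ.nonneg b)
        have : (1 : ℝ) / (j + 1) ≤ 2 / (j + 1) := by
          rw [div_le_div_iff_of_pos_right hv]
          norm_num
        linarith
      refine h5.trans ?_
      rw [← mul_le_mul_iff_of_pos_left hv]
      calc ((j : ℝ) + 1) * ((lam - 1 / ((j : ℝ) + 1)) * φ b) = (lam * ((j : ℝ) + 1) - 1) * φ b := by
            field_simp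
        _ ≤ _ := h4
  choose f hf1 hf2 using step2
  obtain ⟨φ, hφ, hlim⟩ := hF S P h f hf1
  refine ⟨φ, hφ, ?_⟩
  have ht : Tendsto (fun j : ℕ => lam - 2 / ((j : ℝ) + 1)) (hyperfilter ℕ : Filter ℕ)
      (𝓝 (lam - 0)) := by
    refine Tendsto.sub tendsto_const_nhds ?_
    have h1 : Tendsto (fun j : ℕ => (2 : ℝ) / ((j : ℝ) + 1)) atTop (𝓝 0) := by
      have := tendsto_one_div_add_atTop_nhds_zero_nat (𝕜 := ℝ)
      have h2 := this.const_mul 2
      rw [mul_zero] at h2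
      refine h2.congr fun j => ?_
      ring
    exact h1.mono_left (by
      rw [← Nat.cofinite_eq_atTop]
      exact hyperfilter_le_cofinite)
  rw [sub_zero] at ht
  exact le_of_tendsto_of_tendsto (ht.mul (hlim b)) (hlim a) (Eventually.of_forall hf2)

end Pool.Agent.H858.AS
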