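import Pool.Agent.H858.AS.Spec

set_option autoImplicit false

namespace Pool.Agent.H858.AS

namespace LA

universe u

variable {S : Type u} [CommSemiring S] {Q : S → S → Prop}

theorem mulL (h : SPre Q) (c : S) {a b : S} (hab : Q a b) : Q (c * a) (c * b) := by
  have := h.mul a b c hab
  rwa [mul_comm a, mul_comm b] at this

theorem addL (h : SPre Q) (c : S) {a b : S} (hab : Q a b) : Q (c + a) (c + b) := by
  have := h.add a b c hab
  rwa [add_comm a, add_comm b] at this

theorem le_add (h : SPre Q) (a b : S) : Q a (a + b) := by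
  have := addL h a (h.zero b)
  rwa [add_zero] at this

theorem one_ne (h : SPre Q) : (1 : S) ≠ 0 := by
  intro h1
  have := h.nat 1 0 (by
    rw [Nat.cast_one, Nat.cast_zero, h1]
    exact h.refl 0)
  omega

theorem nat_le (h : SPre Q) {n m : ℕ} (hnm : n ≤ m) : Q (n : S) (m : S) := by
  obtain ⟨d, rfl⟩ := Nat.exists_eq_add_of_le hnm
  rw [Nat.cast_add]
  exact le_add h _ _

theorem iter (h : SPre Q) (X Y c : S) (h1 : Q (X + c) (Y + c)) (n : ℕ) :
    Q ((n : S) * X + c) ((n : S) * Y + c) := by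
  induction n with
  | zero => simp only [Nat.cast_zero, zero_mul]; exact h.refl _
  | succ n ih =>
    have e1 : ((n + 1 : ℕ) : S) * X + c = (n : S) * X + (X + c) := by push_cast; ring
    have e2 : ((n + 1 : ℕ) : S) * Y + c = Y + ((n : S) * Y + c) := by push_cast; ring
    rw [e1, e2]
    refine h.trans _ _ _ (addL h ((n : S) * X) h1) ?_
    have e3 : (n : S) * X + (Y + c) = Y + ((n : S) * X + c) := by ring
    rw [e3]
    exact addL h Y ih

theorem pow_le (h : SPre Q) (s a b x y : S) (h1 : Q (x * s * a) (y * s * b)) (N : ℕ) :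
    Q (x ^ N * s * a ^ N) (y ^ N * s * b ^ N) := by
  induction N with
  | zero => simp only [pow_zero, one_mul, mul_one]; exact h.refl _
  | succ N ih =>
    have e1 : x ^ (N + 1) * s * a ^ (N + 1) = (x * a) * (x ^ N * s * a ^ N) := by ring
    have e2 : y ^ (N + 1) * s * b ^ (N + 1) = (y ^ N * b ^ N) * (y * s * b) := by ring
    rw [e1, e2]
    refine h.trans _ _ _ (mulL h (x * a) ih) ?_
    have e3 : (x * a) * (y ^ N * s * b ^ N) = (y ^ N * b ^ N) * (x * s * a) := by ring
    rw [e3]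
    exact mulL h _ h1

end LA

open LA in
theorem lemA : S_A := by
  intro S _ Q h n₀ m₀ s a b hmn h0
  have h1 : Q ((1 + s * a) + (m₀ : S)) (s * b + (m₀ : S)) := by
    have e1 : Q (((m₀ + 1 : ℕ) : S) + s * a) ((n₀ : S) + s * a) :=
      h.add _ _ _ (nat_le h hmn)
    have e2 := h.trans _ _ _ e1 h0
    have e3 : ((m₀ + 1 : ℕ) : S) + s * a = (1 + s * a) + (m₀ : S) := by push_cast; ring
    have e4 : (m₀ : S) + s * b = s * b + (m₀ : S) := by ring
    rwa [e3, e4] at e2
  have hY : s * b ≠ 0 := by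
    intro hY
    rw [hY, zero_add] at h1
    have e1 : Q (((m₀ + 1 : ℕ) : S)) ((1 + s * a) + (m₀ : S)) := by
      have e3 : (1 + s * a) + (m₀ : S) = ((m₀ + 1 : ℕ) : S) + s * a := by push_cast; ring
      rw [e3]
      exact le_add h _ _
    have := h.nat _ _ (h.trans _ _ _ e1 h1)
    omega
  have hs : s ≠ 0 := fun e => hY (by rw [e, zero_mul])
  obtain ⟨r, hr⟩ := h.arch (m₀ : S) (s * b) hY
  obtain ⟨t, ht⟩ := h.arch 1 s hs
  obtain ⟨q, hq⟩ := h.arch s 1 (one_ne h)
  have hkey : ∀ n : ℕ, Q ((n : S) * s * a) (((n + r : ℕ) : S) * s * b) := by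
    intro n
    have k1 : Q ((n : S) * s * a) ((n : S) * (1 + s * a) + (m₀ : S)) := by
      have e : (n : S) * (1 + s * a) + (m₀ : S) = (n : S) * s * a + ((n : S) + (m₀ : S)) := by ring
      rw [e]
      exact le_add h _ _
    have k2 := iter h _ _ _ h1 n
    have k3 : Q ((n : S) * (s * b) + (m₀ : S)) (((n + r : ℕ) : S) * s * b) := by
      have e : ((n + r : ℕ) : S) * s * b = (n : S) * (s * b) + (r : S) * (s * b) := by
        push_cast; ring
      rw [e]
      exact addL h _ hr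
    exact h.trans _ _ _ (h.trans _ _ _ k1 k2) k3
  refine ⟨t * q, r, fun n N => ?_⟩
  have k1 := pow_le h s a b _ _ (hkey n) N
  have k2 : Q ((n : S) ^ N * a ^ N) ((t : S) * ((n : S) ^ N * s * a ^ N)) := by
    have := mulL h ((n : S) ^ N * a ^ N) ht
    have e : (n : S) ^ N * a ^ N * ((t : S) * s) = (t : S) * ((n : S) ^ N * s * a ^ N) := by ring
    rwa [mul_one, e] at this
  have k3 := mulL h (t : S) k1
  have k4 : Q ((t : S) * (((n + r : ℕ) : S) ^ N * s * b ^ N))
      (((t * q : ℕ) : S) * ((n + r : ℕ) : S) ^ N * b ^ N) := by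
    have := mulL h ((t : S) * ((n + r : ℕ) : S) ^ N * b ^ N) hq
    have e1 : (t : S) * ((n + r : ℕ) : S) ^ N * b ^ N * s =
        (t : S) * (((n + r : ℕ) : S) ^ N * s * b ^ N) := by ring
    have e2 : (t : S) * ((n + r : ℕ) : S) ^ N * b ^ N * ((q : S) * 1) =
        ((t * q : ℕ) : S) * ((n + r : ℕ) : S) ^ N * b ^ N := by
      rw [Nat.cast_mul, mul_one]; ring
    rwa [e1, e2] at this
  exact h.trans _ _ _ (h.trans _ _ _ k2 k3) k4

end Pool.Agent.H858.AS
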