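import Pool.Agent.H858.AS.Spec

/-!
# Extension and maximality of Strassen preorders
-/

set_option autoImplicit false

namespace Pool.Agent.H858.AS

theorem lemB : S_B := by
  intro S _ Q hQ a b hn
  refine ⟨fun x y => ∃ s, Q (x + s * a) (y + s * b), ⟨?_, ?_, ?_, ?_, ?_, ?_, ?_⟩, ?_, ?_⟩
  · intro x
    refine ⟨0, ?_⟩
    rw [zero_mul, zero_mul]
    exact hQ.refl _
  · rintro x y z ⟨s, hs⟩ ⟨t, ht⟩
    refine ⟨s + t, ?_⟩
    have h1 := hQ.add _ _ (t * a) hs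
    have h2 := hQ.add _ _ (s * b) ht
    have e1 : x + (s + t) * a = x + s * a + t * a := by ring
    have e2 : z + (s + t) * b = z + t * b + s * b := by ring
    have e3 : y + s * b + t * a = y + t * a + s * b := by ring
    rw [e1, e2]
    rw [e3] at h1
    exact hQ.trans _ _ _ h1 h2
  · rintro x y c ⟨s, hs⟩
    refine ⟨s, ?_⟩
    have h1 := hQ.add _ _ c hs
    have e1 : x + c + s * a = x + s * a + c := by ring
    have e2 : y + c + s * b = y + s * b + c := by ring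
    rw [e1, e2]
    exact h1
  · rintro x y c ⟨s, hs⟩
    refine ⟨s * c, ?_⟩
    have h1 := hQ.mul _ _ c hs
    have e1 : x * c + s * c * a = (x + s * a) * c := by ring
    have e2 : y * c + s * c * b = (y + s * b) * c := by ring
    rw [e1, e2]
    exact h1
  · intro x
    refine ⟨0, ?_⟩
    rw [zero_mul, zero_mul, add_zero, add_zero]
    exact hQ.zero x
  · rintro n m ⟨s, hs⟩
    exact hn n m s hs
  · intro x y hy
    obtain ⟨r, hr⟩ := hQ.arch x y hy
    refine ⟨r, 0, ?_⟩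
    rw [zero_mul, zero_mul, add_zero, add_zero]
    exact hr
  · intro x y hxy
    refine ⟨0, ?_⟩
    rw [zero_mul, zero_mul, add_zero, add_zero]
    exact hxy
  · refine ⟨1, ?_⟩
    have e : b + 1 * a = a + 1 * b := by ring
    rw [e]
    exact hQ.refl _

theorem lemC : S_C := by
  intro S _ P hP
  obtain ⟨Q, hPQ, hQ⟩ := zorn_le_nonempty₀ {Q : S → S → Prop | SPre Q} (by
    intro c hc hchain R hR
    have hRS : SPre R := hc hR
    refine ⟨fun x y => ∃ Q ∈ c, Q x y, ⟨?_, ?_, ?_, ?_, ?_, ?_, ?_⟩, ?_⟩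
    · exact fun x => ⟨R, hR, hRS.refl x⟩
    · rintro x y z ⟨Q₁, h1, h1'⟩ ⟨Q₂, h2, h2'⟩
      rcases hchain.total h1 h2 with h | h
      · exact ⟨Q₂, h2, (hc h2).trans _ _ _ (h x y h1') h2'⟩
      · exact ⟨Q₁, h1, (hc h1).trans _ _ _ h1' (h y z h2')⟩
    · rintro x y z ⟨Q₁, h1, h1'⟩
      exact ⟨Q₁, h1, (hc h1).add _ _ _ h1'⟩
    · rintro x y z ⟨Q₁, h1, h1'⟩
      exact ⟨Q₁, h1, (hc h1).mul _ _ _ h1'⟩
    · exact fun x => ⟨R, hR, hRS.zero x⟩
    · rintro n m ⟨Q₁, h1, h1'⟩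
      exact (hc h1).nat n m h1'
    · intro x y hy
      obtain ⟨r, hr⟩ := hRS.arch x y hy
      exact ⟨r, R, hR, hr⟩
    · intro Q₁ h1 x y hxy
      exact ⟨Q₁, h1, hxy⟩) P hP
  refine ⟨Q, hQ.1, fun x y h => hPQ x y h, fun Q' hQ' hle x y h => ?_⟩
  exact hQ.2 hQ' (fun x y h => hle x y h) x y h

end Pool.Agent.H858.AS
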