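import Pool.Agent.H858.AS.Spec

/-!
# Construction of a spectral point (S_D)
-/

set_option autoImplicit false

namespace Pool.Agent.H858.AS

namespace LD

variable {S : Type 1} [CommSemiring S] {Q : S → S → Prop}

theorem cast_mono (hQ : SPre Q) {n m : ℕ} (h : n ≤ m) : Q (n : S) (m : S) := by
  obtain ⟨k, rfl⟩ := Nat.exists_eq_add_of_le h
  have h1 := hQ.add 0 (k : S) (n : S) (hQ.zero _)
  rw [zero_add] at h1
  rw [Nat.cast_add, add_comm (n : S)]
  exact h1

theorem one_ne (hQ : SPre Q) : (1 : S) ≠ 0 := by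
  intro h
  have h1 : Q ((1 : ℕ) : S) ((0 : ℕ) : S) := by
    rw [Nat.cast_one, Nat.cast_zero, h]
    exact hQ.refl _
  have := hQ.nat 1 0 h1
  omega

theorem add_mono (hQ : SPre Q) {a b c d : S} (h : Q a b) (h' : Q c d) : Q (a + c) (b + d) := by
  refine hQ.trans _ (b + c) _ (hQ.add _ _ _ h) ?_
  rw [add_comm b c, add_comm b d]
  exact hQ.add _ _ _ h'

theorem mul_mono (hQ : SPre Q) {a b c d : S} (h : Q a b) (h' : Q c d) : Q (a * c) (b * d) := by
  refine hQ.trans _ (b * c) _ (hQ.mul _ _ _ h) ?_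
  rw [mul_comm b c, mul_comm b d]
  exact hQ.mul _ _ _ h'

theorem mul_left (hQ : SPre Q) {a b : S} (c : S) (h : Q a b) : Q (c * a) (c * b) :=
  mul_mono hQ (hQ.refl c) h

/-- the upper approximations -/
def U (Q : S → S → Prop) (a : S) : Set ℝ :=
  {x | ∃ s r : ℕ, 1 ≤ s ∧ Q ((s : S) * a) (r : S) ∧ x = (r : ℝ) / s}

/-- the spectral point -/
noncomputable def ph (Q : S → S → Prop) (a : S) : ℝ := sInf (U Q a)

theorem U_nonempty (hQ : SPre Q) (a : S) : (U Q a).Nonempty := by
  obtain ⟨r, hr⟩ := hQ.arch a 1 (one_ne hQ)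
  refine ⟨(r : ℝ) / (1 : ℕ), 1, r, le_rfl, ?_, rfl⟩
  rw [Nat.cast_one, one_mul]
  rwa [mul_one] at hr

theorem U_nonneg {a : S} {x : ℝ} (hx : x ∈ U Q a) : 0 ≤ x := by
  obtain ⟨s, r, -, -, rfl⟩ := hx
  positivity

theorem U_bdd (a : S) : BddBelow (U Q a) := ⟨0, fun _ hx => U_nonneg hx⟩

theorem ph_nonneg (hQ : SPre Q) (a : S) : 0 ≤ ph Q a :=
  le_csInf (U_nonempty hQ a) fun _ hx => U_nonneg hx

theorem ph_le {a : S} {s r : ℕ} (hs : 1 ≤ s) (h : Q ((s : S) * a) (r : S)) :
    ph Q a ≤ (r : ℝ) / s := csInf_le (U_bdd a) ⟨s, r, hs, h, rfl⟩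

theorem le_ph (hQ : SPre Q) {a : S} {s r : ℕ} (hs : 1 ≤ s) (h : Q (r : S) ((s : S) * a)) :
    (r : ℝ) / s ≤ ph Q a := by
  refine le_csInf (U_nonempty hQ a) ?_
  rintro x ⟨s', r', hs', h', rfl⟩
  have h1 : Q ((s' * r : ℕ) : S) ((s * r' : ℕ) : S) := by
    rw [Nat.cast_mul, Nat.cast_mul]
    refine hQ.trans _ _ _ (mul_left hQ _ h) ?_
    rw [mul_left_comm]
    exact mul_left hQ _ h'
  have h2 := hQ.nat _ _ h1
  have hs0 : (0 : ℝ) < s := by exact_mod_cast hs
  have hs0' : (0 : ℝ) < s' := by exact_mod_cast hs'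
  rw [div_le_div_iff₀ hs0 hs0']
  have h3 : (s' : ℝ) * r ≤ s * r' := by exact_mod_cast h2
  linarith

/-- `A ^ N ≤ K * B ^ N` for all `N` implies `A ≤ B` -/
theorem pow_lim {A B K : ℕ} (h : ∀ N : ℕ, A ^ N ≤ K * B ^ N) : A ≤ B := by
  by_contra hcon
  push Not at hcon
  rcases Nat.eq_zero_or_pos B with hB | hB
  · subst hB
    have := h 1
    rw [pow_one, pow_one, mul_zero] at this
    omega
  · have hB' : (0 : ℝ) < B := by exact_mod_cast hB
    have h1 : ∀ N : ℕ, 1 + (N : ℝ) * (1 / B) ≤ K := by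
      intro N
      have e1 : (1 + (1 : ℝ) / B) ^ N ≤ K := by
        have e2 : ((A : ℝ)) ^ N ≤ K * (B : ℝ) ^ N := by exact_mod_cast h N
        have e3 : ((B : ℝ) + 1) ^ N ≤ (A : ℝ) ^ N := by
          refine pow_le_pow_left₀ (by positivity) ?_ _
          exact_mod_cast hcon
        have e4 : (1 + (1 : ℝ) / B) ^ N * (B : ℝ) ^ N = ((B : ℝ) + 1) ^ N := by
          rw [← mul_pow]
          congr 1
          field_simp
        have e5 : (0 : ℝ) < (B : ℝ) ^ N := by positivity
        refine le_of_mul_le_mul_right ?_ e5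
        rw [e4]
        linarith
      refine le_trans ?_ e1
      have := one_add_mul_le_pow (R := ℝ) (a := 1 / B) (by
        have : (0 : ℝ) ≤ 1 / B := by positivity
        linarith) N
      exact this
    have h2 := h1 (K * B)
    have e : 1 + ((K * B : ℕ) : ℝ) * (1 / B) = 1 + K := by
      push_cast
      field_simp
    rw [e] at h2
    linarith

/-- the second limit -/
theorem quad_lim {A B r₀ r₁ : ℕ} (h : ∀ n : ℕ, n ^ 2 * A ≤ (n + r₀) * (n + r₁) * B) : A ≤ B := by
  by_contra hcon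
  push Not at hcon
  obtain ⟨n, hn⟩ : ∃ n : ℕ, n = (r₀ + r₁ + r₀ * r₁) * B + 1 := ⟨_, rfl⟩
  have h1 := h n
  have h2 : n ^ 2 * (B + 1) ≤ (n + r₀) * (n + r₁) * B :=
    le_trans (Nat.mul_le_mul_left _ hcon) h1
  have h3 : n ^ 2 ≤ (n * (r₀ + r₁) + r₀ * r₁) * B := by
    have e1 : n ^ 2 * (B + 1) = n ^ 2 * B + n ^ 2 := by ring
    have e2 : (n + r₀) * (n + r₁) * B = n ^ 2 * B + (n * (r₀ + r₁) + r₀ * r₁) * B := by ring
    omega
  have h4 : (n * (r₀ + r₁) + r₀ * r₁) * B ≤ n * ((r₀ + r₁ + r₀ * r₁) * B) := by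
    have hn1 : 1 ≤ n := by omega
    have e1 : r₀ * r₁ ≤ n * (r₀ * r₁) := Nat.le_mul_of_pos_left _ hn1
    calc (n * (r₀ + r₁) + r₀ * r₁) * B ≤ (n * (r₀ + r₁) + n * (r₀ * r₁)) * B :=
          Nat.mul_le_mul_right _ (by omega)
      _ = n * ((r₀ + r₁ + r₀ * r₁) * B) := by ring
  have h5 : n * ((r₀ + r₁ + r₀ * r₁) * B) < n ^ 2 := by
    rw [pow_two]
    refine Nat.mul_lt_mul_of_pos_left ?_ (by omega)
    omega
  omega

/-- lower approximations -/
theorem lower (hQ : SPre Q) (htot : ∀ a b : S, Q b a ∨ ∃ C r : ℕ, ∀ n N : ℕ,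
      Q ((n : S) ^ N * a ^ N) ((C : S) * ((n + r : ℕ) : S) ^ N * b ^ N)) (a : S) (x : ℝ)
    (hx : x < ph Q a) : ∃ r s : ℕ, 1 ≤ s ∧ Q (r : S) ((s : S) * a) ∧ x ≤ (r : ℝ) / s := by
  rcases le_or_gt x 0 with hx0 | hx0
  · refine ⟨0, 1, le_rfl, ?_, ?_⟩
    · rw [Nat.cast_zero]
      exact hQ.zero _
    · rw [Nat.cast_zero, zero_div]
      exact hx0
  obtain ⟨q, hq1, hq2⟩ := exists_rat_btwn hx
  obtain ⟨q₁, hq₁1, hq₁2⟩ := exists_rat_btwn hq2
  have hq0 : 0 < q := by
    have : (0 : ℝ) < q := hx0.trans hq1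
    exact_mod_cast this
  have hq₁0 : 0 < q₁ := by
    have : (0 : ℝ) < q₁ := (hx0.trans hq1).trans hq₁1
    exact_mod_cast this
  -- natural numerators and denominators
  have hrep : ∀ q : ℚ, 0 < q → ∃ p s : ℕ, 1 ≤ s ∧ (q : ℝ) = (p : ℝ) / s := by
    intro q hq
    refine ⟨q.num.toNat, q.den, q.pos, ?_⟩
    have h1 : ((q.num.toNat : ℤ) : ℝ) = (q.num : ℝ) := by
      rw [Int.toNat_of_nonneg (Rat.num_pos.2 hq).le]
    rw [Int.cast_natCast] at h1
    rw [h1]
    exact Rat.cast_def q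
  obtain ⟨p, s, hs, e⟩ := hrep q hq0
  obtain ⟨p₁, s₁, hs₁, e₁⟩ := hrep q₁ hq₁0
  refine ⟨p, s, hs, ?_, ?_⟩
  swap
  · rw [← e]
    exact hq1.le
  rcases htot ((s : S) * a) (p : S) with h | ⟨C, r₀, h⟩
  · exact h
  exfalso
  have hnot : ¬ Q ((s₁ : S) * a) (p₁ : S) := by
    intro hc
    have := ph_le hs₁ hc
    rw [← e₁] at this
    linarith
  obtain ⟨C', r₁, h'⟩ := (htot (p₁ : S) ((s₁ : S) * a)).resolve_left hnot
  have key : ∀ n N : ℕ, (n ^ 2 * (s * p₁)) ^ N ≤ (C * C') * ((n + r₀) * (n + r₁) * (s₁ * p)) ^ N := by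
    intro n N
    apply hQ.nat
    have e1 : (((n ^ 2 * (s * p₁)) ^ N : ℕ) : S) =
        ((n : S) ^ N * (s : S) ^ N) * ((n : S) ^ N * (p₁ : S) ^ N) := by
      push_cast
      ring
    have e2 : ((n : S) ^ N * (s : S) ^ N) * ((C' : S) * ((n + r₁ : ℕ) : S) ^ N * ((s₁ : S) * a) ^ N) =
        ((C' : S) * ((n + r₁ : ℕ) : S) ^ N * (s₁ : S) ^ N) * ((n : S) ^ N * ((s : S) * a) ^ N) := by
      push_cast
      ring
    have e3 : ((C' : S) * ((n + r₁ : ℕ) : S) ^ N * (s₁ : S) ^ N) *
        ((C : S) * ((n + r₀ : ℕ) : S) ^ N * (p : S) ^ N) =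
        (((C * C') * ((n + r₀) * (n + r₁) * (s₁ * p)) ^ N : ℕ) : S) := by
      push_cast
      rw [mul_pow, mul_pow, mul_pow]
      ring
    rw [e1]
    refine hQ.trans _ _ _ (mul_left hQ _ (h' n N)) ?_
    rw [e2]
    refine hQ.trans _ _ _ (mul_left hQ _ (h n N)) ?_
    rw [e3]
    exact hQ.refl _
  have h3 : s * p₁ ≤ s₁ * p := quad_lim (r₀ := r₀) (r₁ := r₁) fun n => pow_lim (key n)
  have hs0 : (0 : ℝ) < s := by exact_mod_cast hs
  have hs0' : (0 : ℝ) < s₁ := by exact_mod_cast hs₁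
  have h4 : (p : ℝ) / s < (p₁ : ℝ) / s₁ := by
    rw [← e, ← e₁]
    exact hq₁1
  rw [div_lt_div_iff₀ hs0 hs0'] at h4
  have h5 : (s : ℝ) * p₁ ≤ s₁ * p := by exact_mod_cast h3
  linarith

end LD

open LD in
/-- Lemma D. -/
theorem lemD : S_D := by
  intro S _ Q hQ htot
  have hlow := lower hQ htot
  refine ⟨ph Q, ph_nonneg hQ, ?_, ?_, ?_, ?_, ?_⟩
  · -- one
    apply le_antisymm
    · have := ph_le (Q := Q) (a := 1) (s := 1) (r := 1) le_rfl (by
        rw [Nat.cast_one, mul_one]; exact hQ.refl _)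
      simpa using this
    · have := le_ph hQ (a := 1) (s := 1) (r := 1) le_rfl (by
        rw [Nat.cast_one, mul_one]; exact hQ.refl _)
      simpa using this
  · -- zero
    apply le_antisymm
    · have := ph_le (Q := Q) (a := 0) (s := 1) (r := 0) le_rfl (by
        rw [Nat.cast_zero, mul_zero]; exact hQ.refl _)
      simpa using this
    · exact ph_nonneg hQ 0
  · -- additive
    intro a b
    apply le_antisymm
    · have h1 : ∀ x ∈ U Q a, ∀ y ∈ U Q b, ph Q (a + b) ≤ x + y := by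
        rintro x ⟨s, r, hs, h, rfl⟩ y ⟨s', r', hs', h', rfl⟩
        have h2 : Q (((s * s' : ℕ) : S) * (a + b)) ((s' * r + s * r' : ℕ) : S) := by
          have e1 : ((s * s' : ℕ) : S) * (a + b) =
              (s' : S) * ((s : S) * a) + (s : S) * ((s' : S) * b) := by
            push_cast
            ring
          rw [e1]
          push_cast
          exact add_mono hQ (mul_left hQ _ h) (mul_left hQ _ h')
        have h3 := ph_le (one_le_mul hs hs') h2
        refine h3.trans (le_of_eq ?_)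
        have hs0 : (s : ℝ) ≠ 0 := by
          have : (0 : ℝ) < s := by exact_mod_cast hs
          exact this.ne'
        have hs0' : (s' : ℝ) ≠ 0 := by
          have : (0 : ℝ) < s' := by exact_mod_cast hs'
          exact this.ne'
        push_cast
        field_simp
        try ring
      have h2 : ∀ y ∈ U Q b, ph Q (a + b) - y ≤ ph Q a := by
        intro y hy
        refine le_csInf (U_nonempty hQ a) fun x hx => ?_
        linarith [h1 x hx y hy]
      have h3 : ph Q (a + b) - ph Q a ≤ ph Q b := by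
        refine le_csInf (U_nonempty hQ b) fun y hy => ?_
        linarith [h2 y hy]
      linarith
    · by_contra hcon
      push Not at hcon
      obtain ⟨d, hd⟩ : ∃ d : ℝ, d = (ph Q a + ph Q b - ph Q (a + b)) / 4 := ⟨_, rfl⟩
      have hd0 : 0 < d := by rw [hd]; linarith
      obtain ⟨r, s, hs, h, hx⟩ := hlow a (ph Q a - d) (by linarith)
      obtain ⟨r', s', hs', h', hy⟩ := hlow b (ph Q b - d) (by linarith)
      have h2 : Q ((s' * r + s * r' : ℕ) : S) (((s * s' : ℕ) : S) * (a + b)) := by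
        have e1 : ((s * s' : ℕ) : S) * (a + b) =
            (s' : S) * ((s : S) * a) + (s : S) * ((s' : S) * b) := by
          push_cast
          ring
        rw [e1]
        push_cast
        exact add_mono hQ (mul_left hQ _ h) (mul_left hQ _ h')
      have h3 := le_ph hQ (one_le_mul hs hs') h2
      have h4 : (((s' * r + s * r' : ℕ) : ℝ)) / ((s * s' : ℕ) : ℝ) = (r : ℝ) / s + (r' : ℝ) / s' := by
        have hs0 : (s : ℝ) ≠ 0 := by
          have : (0 : ℝ) < s := by exact_mod_cast hs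
          exact this.ne'
        have hs0' : (s' : ℝ) ≠ 0 := by
          have : (0 : ℝ) < s' := by exact_mod_cast hs'
          exact this.ne'
        push_cast
        field_simp
        try ring
      rw [h4] at h3
      linarith
  · -- multiplicative
    intro a b
    apply le_antisymm
    · have h1 : ∀ x ∈ U Q a, ∀ y ∈ U Q b, ph Q (a * b) ≤ x * y := by
        rintro x ⟨s, r, hs, h, rfl⟩ y ⟨s', r', hs', h', rfl⟩
        have h2 : Q (((s * s' : ℕ) : S) * (a * b)) ((r * r' : ℕ) : S) := by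
          have e1 : ((s * s' : ℕ) : S) * (a * b) = ((s : S) * a) * ((s' : S) * b) := by
            push_cast
            ring
          rw [e1]
          push_cast
          exact mul_mono hQ h h'
        have h3 := ph_le (one_le_mul hs hs') h2
        refine h3.trans (le_of_eq ?_)
        push_cast
        rw [div_mul_div_comm]
      have h2 : ∀ x ∈ U Q a, ph Q (a * b) ≤ x * ph Q b := by
        intro x hx
        rcases (U_nonneg hx).eq_or_lt with h0 | h0
        · obtain ⟨y, hy⟩ := U_nonempty hQ b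
          have := h1 x hx y hy
          rw [← h0] at this ⊢
          simpa using this
        · have : ph Q (a * b) / x ≤ ph Q b := by
            refine le_csInf (U_nonempty hQ b) fun y hy => ?_
            rw [div_le_iff₀ h0]
            have := h1 x hx y hy
            linarith
          rw [div_le_iff₀ h0] at this
          linarith
      rcases (ph_nonneg hQ b).eq_or_lt with h0 | h0
      · obtain ⟨x, hx⟩ := U_nonempty hQ a
        have := h2 x hx
        rw [← h0] at this ⊢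
        simpa using this
      · have : ph Q (a * b) / ph Q b ≤ ph Q a := by
          refine le_csInf (U_nonempty hQ a) fun x hx => ?_
          rw [div_le_iff₀ h0]
          exact h2 x hx
        rwa [div_le_iff₀ h0] at this
    · by_contra hcon
      push Not at hcon
      have hab0 := ph_nonneg hQ (a * b)
      have ha0 : 0 < ph Q a := by
        rcases (ph_nonneg hQ a).eq_or_lt with h0 | h0
        · rw [← h0, zero_mul] at hcon
          linarith
        · exact h0
      have hb0 : 0 < ph Q b := by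
        rcases (ph_nonneg hQ b).eq_or_lt with h0 | h0
        · rw [← h0, mul_zero] at hcon
          linarith
        · exact h0
      have hP : 0 < ph Q a * ph Q b := mul_pos ha0 hb0
      obtain ⟨t, ht⟩ : ∃ t : ℝ, t = ph Q (a * b) / (ph Q a * ph Q b) := ⟨_, rfl⟩
      have ht1 : t < 1 := by rw [ht, div_lt_one hP]; exact hcon
      have ht0 : 0 ≤ t := by rw [ht]; positivity
      have hte : ph Q (a * b) = t * (ph Q a * ph Q b) := by
        rw [ht, div_mul_cancel₀ _ hP.ne']
      obtain ⟨c, hc⟩ : ∃ c : ℝ, c = (1 + t) / 2 := ⟨_, rfl⟩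
      have hc0 : 0 < c := by rw [hc]; linarith
      have hc1 : c < 1 := by rw [hc]; linarith
      obtain ⟨r, s, hs, h, hx⟩ := hlow a (c * ph Q a) (by nlinarith)
      obtain ⟨r', s', hs', h', hy⟩ := hlow b (c * ph Q b) (by nlinarith)
      have h2 : Q ((r * r' : ℕ) : S) (((s * s' : ℕ) : S) * (a * b)) := by
        have e1 : ((s * s' : ℕ) : S) * (a * b) = ((s : S) * a) * ((s' : S) * b) := by
          push_cast
          ring
        rw [e1]
        push_cast
        exact mul_mono hQ h h'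
      have h3 := le_ph hQ (one_le_mul hs hs') h2
      have h4 : (((r * r' : ℕ) : ℝ)) / ((s * s' : ℕ) : ℝ) = ((r : ℝ) / s) * ((r' : ℝ) / s') := by
        push_cast
        rw [div_mul_div_comm]
      rw [h4] at h3
      have h5 : (c * ph Q a) * (c * ph Q b) ≤ ((r : ℝ) / s) * ((r' : ℝ) / s') :=
        mul_le_mul hx hy (by positivity) (by positivity)
      have h6 : c * c * (ph Q a * ph Q b) ≤ t * (ph Q a * ph Q b) := by
        rw [← hte]
        linarith
      have h7 : c * c ≤ t := le_of_mul_le_mul_right h6 hP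
      rw [hc] at h7
      nlinarith
  · -- monotone
    intro a b hab
    refine csInf_le_csInf (U_bdd a) (U_nonempty hQ b) ?_
    rintro x ⟨s, r, hs, h, rfl⟩
    exact ⟨s, r, hs, hQ.trans _ _ _ (mul_left hQ _ hab) h, rfl⟩

end Pool.Agent.H858.AS
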