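import Pool.Agent.H858.AS.Spec

set_option autoImplicit false

namespace Pool.Agent.H858.AS

open Filter Topology

namespace LF

universe u

variable {S : Type u} [CommSemiring S] {P : S → S → Prop}

theorem one_ne (h : SPre P) : (1 : S) ≠ 0 := by
  intro h1
  have := h.nat 1 0 (by
    rw [Nat.cast_one, Nat.cast_zero, h1]
    exact h.refl 0)
  omega

theorem pt_nat {φ : S → ℝ} (hφ : IsPt P φ) (n : ℕ) : φ (n : S) = n := by
  induction n with
  | zero => rw [Nat.cast_zero, Nat.cast_zero, hφ.zero]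
  | succ n ih => rw [Nat.cast_add, Nat.cast_one, hφ.add, ih, hφ.one]; push_cast; ring

theorem bdd (h : SPre P) (x : S) : ∃ r : ℕ, ∀ φ : S → ℝ, IsPt P φ → φ x ∈ Set.Icc (0 : ℝ) r := by
  obtain ⟨r, hr⟩ := h.arch x 1 (one_ne h)
  refine ⟨r, fun φ hφ => ⟨hφ.nonneg x, ?_⟩⟩
  have := hφ.mono _ _ hr
  rwa [mul_one, pt_nat hφ] at this

theorem lim (h : SPre P) (f : ℕ → S → ℝ) (hf : ∀ j, IsPt P (f j)) (x : S) :
    ∃ y : ℝ, Tendsto (fun j => f j x) (hyperfilter ℕ : Filter ℕ) (𝓝 y) := by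
  obtain ⟨r, hr⟩ := bdd h x
  have hK : IsCompact (Set.Icc (0 : ℝ) r) := isCompact_Icc
  have := hK.ultrafilter_le_nhds ((hyperfilter ℕ).map fun j => f j x) (by
    rw [Filter.le_principal_iff]
    exact Filter.mem_map.mpr (Filter.univ_mem' fun j => hr _ (hf j)))
  obtain ⟨y, -, hy⟩ := this
  exact ⟨y, hy⟩

end LF

open LF in
theorem lemF : S_F := by
  intro S _ P h f hf
  choose φ hφ using lim h f hf
  refine ⟨φ, ⟨?_, ?_, ?_, ?_, ?_, ?_⟩, hφ⟩
  · intro a
    exact ge_of_tendsto (hφ a) (Filter.Eventually.of_forall fun j => (hf j).nonneg a)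
  · refine tendsto_nhds_unique (hφ 1) ?_
    simp only [(hf _).one]
    exact tendsto_const_nhds
  · refine tendsto_nhds_unique (hφ 0) ?_
    simp only [(hf _).zero]
    exact tendsto_const_nhds
  · intro a b
    refine tendsto_nhds_unique (hφ (a + b)) ?_
    simp only [(hf _).add]
    exact (hφ a).add (hφ b)
  · intro a b
    refine tendsto_nhds_unique (hφ (a * b)) ?_
    simp only [(hf _).mul]
    exact (hφ a).mul (hφ b)
  · intro a b hab
    exact le_of_tendsto_of_tendsto (hφ a) (hφ b)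
      (Filter.Eventually.of_forall fun j => (hf j).mono a b hab)

end Pool.Agent.H858.AS
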