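import Pool.Agent.H858.AS.Main

/-!
# Consequences of the duality
-/

set_option autoImplicit false

namespace Pool.Agent.H858.AS

open TensorProduct PowerSeries Filter Topology
open Pool.Agent.H826R3.SM Pool.Agent.TH671.DU

variable {k : Type} [Field k] [IsAlgClosed k]

theorem rate_nonneg (A : FAlg k) : 0 ≤ rate k A := by
  rw [rate_eq]
  exact irate_nonneg _

theorem rate_zero (A : FAlg k) (h : Subsingleton A) : rate k A = 0 := by
  refine le_antisymm ?_ (rate_nonneg A)
  rw [rate_eq]
  refine (irate_le _ 0).trans ?_
  have h1 : mdeg k (Pow k A (0 + 1)) = 0 := by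
    have h2 := M_mk (FAlg.of k (Pow k A 1))
    rw [← mk_pow, pow_one, Cls.mk_eq_zero.mpr h, M_zero] at h2
    exact h2.symm
  rw [h1]
  norm_num

theorem rate_pos (A : FAlg k) [Nontrivial A] : 0 < rate k A := by
  have h3 := finrank_le_rate (k := k) A
  have h4 : (0 : ℝ) < Module.finrank k A := by exact_mod_cast Module.finrank_pos
  linarith

theorem isGreatest (L : Lem) (A : FAlg k) [Nontrivial A] :
    IsGreatest {x : ℝ | ∃ φ : FAlg k → ℝ, Spectral k φ ∧ x = φ A} (rate k A) := by
  constructor
  · obtain ⟨φ, h1, h2⟩ := exists_max L A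
    exact ⟨φ, h1, h2.symm⟩
  · rintro x ⟨φ, h1, rfl⟩
    exact le_rate h1 A

theorem qOne_iff (L : Lem) (A : FAlg k) [Nontrivial A] :
    QOne k A ↔ ∀ φ : FAlg k → ℝ, Spectral k φ → φ A ≤ Module.finrank k A := by
  rw [qOne_iff_rate]
  constructor
  · intro h φ hφ
    rw [← h]
    exact le_rate hφ A
  · intro h
    obtain ⟨φ, h1, h2⟩ := exists_max L A
    refine le_antisymm ?_ (finrank_le_rate A)
    rw [← h2]
    exact h φ h1

instance nontrivial_prod (A B : FAlg k) [Nontrivial A] : Nontrivial (FAlg.of k (A × B)) :=
  inferInstanceAs (Nontrivial (A × B))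

theorem nontrivial_tensor (A B : FAlg k) [Nontrivial A] [Nontrivial B] :
    Nontrivial (FAlg.of k (A ⊗[k] B)) := by
  have h1 : 0 < Module.finrank k (A ⊗[k] B) := by
    rw [Module.finrank_tensorProduct]
    exact Nat.mul_pos Module.finrank_pos Module.finrank_pos
  exact Module.nontrivial_of_finrank_pos h1

/-- additivity and multiplicativity of the rate -/
theorem add_iff (L : Lem) (A B : FAlg k) [Nontrivial A] [Nontrivial B] :
    (rate k (A × B) = rate k A + rate k B ↔
      ∃ φ : FAlg k → ℝ, Spectral k φ ∧ φ A = rate k A ∧ φ B = rate k B) ∧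
    (rate k (A ⊗[k] B) = rate k A * rate k B ↔
      ∃ φ : FAlg k → ℝ, Spectral k φ ∧ φ A = rate k A ∧ φ B = rate k B) := by
  have hn := nontrivial_tensor A B
  obtain ⟨φ, h1, h2⟩ := exists_max L (FAlg.of k (A × B))
  obtain ⟨φ', h1', h2'⟩ := exists_max L (FAlg.of k (A ⊗[k] B))
  have hA := rate_pos A
  have hB := rate_pos B
  constructor
  · constructor
    · intro h
      have h3 := h1.union A B
      have h4 : φ (FAlg.of k (A × B)) = rate k A + rate k B := h2.trans h
      have h5 := le_rate h1 A
      have h6 := le_rate h1 B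
      exact ⟨φ, h1, by linarith, by linarith⟩
    · rintro ⟨χ, h3, h4, h5⟩
      apply le_antisymm
      · have h6 : rate k (A × B) = φ A + φ B := by
          rw [← h1.union]
          exact h2.symm
        rw [h6]
        exact add_le_add (le_rate h1 A) (le_rate h1 B)
      · rw [← h4, ← h5, ← h3.union]
        exact le_rate h3 (FAlg.of k (A × B))
  · constructor
    · intro h
      have h3 := h1'.product A B
      have h4 : φ' (FAlg.of k (A ⊗[k] B)) = rate k A * rate k B := h2'.trans h
      have h5 := le_rate h1' A
      have h6 := le_rate h1' B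
      have h7 := h1'.nonneg A
      have h8 := h1'.nonneg B
      refine ⟨φ', h1', ?_, ?_⟩
      · by_contra hne
        have h9 : φ' A < rate k A := lt_of_le_of_ne h5 hne
        have : φ' A * φ' B < rate k A * rate k B := by nlinarith
        linarith
      · by_contra hne
        have h9 : φ' B < rate k B := lt_of_le_of_ne h6 hne
        have : φ' A * φ' B < rate k A * rate k B := by nlinarith
        linarith
    · rintro ⟨χ, h3, h4, h5⟩
      apply le_antisymm
      · have h6 : rate k (A ⊗[k] B) = φ' A * φ' B := by
          rw [← h1'.product]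
          exact h2'.symm
        rw [h6]
        exact mul_le_mul (le_rate h1' A) (le_rate h1' B) (h1'.nonneg B) hA.le
      · rw [← h4, ← h5, ← h3.product]
        exact le_rate h3 (FAlg.of k (A ⊗[k] B))

theorem rate_iso {A B : FAlg k} (e : A ≃ₐ[k] B) : rate k A = rate k B := by
  rw [rate_eq, rate_eq]
  congr 1
  funext n
  have h1 : Cls.mk (FAlg.of k (Pow k A n)) = Cls.mk (FAlg.of k (Pow k B n)) := by
    rw [← mk_pow, ← mk_pow, Cls.mk_eq e]
  have h2 := congrArg (M k) h1
  exact h2

theorem rate_mono (L : Lem) {A B : FAlg k} (h : Obt k A B) : rate k A ≤ rate k B := by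
  by_cases hA : Nontrivial A
  · by_cases hB : Nontrivial B
    · obtain ⟨φ, h1, h2⟩ := exists_max L A
      rw [← h2]
      exact (h1.obt h).trans (le_rate h1 B)
    · rw [not_nontrivial_iff_subsingleton] at hB
      exfalso
      have h1 := M_po (po_iff.mpr h)
      rw [Cls.mk_eq_zero.mpr hB, M_zero, M_mk] at h1
      have h2 := finrank_le_mdeg (k := k) A
      have h3 : 0 < Module.finrank k A := Module.finrank_pos
      omega
  · rw [not_nontrivial_iff_subsingleton] at hA
    rw [rate_zero A hA]
    exact rate_nonneg B

theorem rate_spectral (L : Lem)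
    (hadd : ∀ A B : FAlg k, Nontrivial A → Nontrivial B → rate k (A × B) = rate k A + rate k B) :
    Spectral k fun A => rate k A where
  nonneg A := rate_nonneg A
  point := by
    have h1 : Nontrivial (FAlg.of k k) := inferInstanceAs (Nontrivial k)
    obtain ⟨φ, h2, h3⟩ := exists_max L (FAlg.of k k)
    rw [← h3, h2.point]
  union A B := by
    by_cases hA : Nontrivial A
    · by_cases hB : Nontrivial B
      · exact hadd A B hA hB
      · rw [not_nontrivial_iff_subsingleton] at hB
        rw [rate_zero B hB, add_zero]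
        obtain ⟨u⟩ := nonempty_unique B
        exact rate_iso (A := FAlg.of k (A × B)) (B := A) AlgEquiv.prodUnique
    · rw [not_nontrivial_iff_subsingleton] at hA
      rw [rate_zero A hA, zero_add]
      obtain ⟨u⟩ := nonempty_unique A
      exact rate_iso (A := FAlg.of k (A × B)) (B := B) AlgEquiv.uniqueProd
  product A B := by
    by_cases hA : Nontrivial A
    · by_cases hB : Nontrivial B
      · rw [(add_iff L A B).2, ← (add_iff L A B).1]
        exact hadd A B hA hB
      · rw [not_nontrivial_iff_subsingleton] at hB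
        rw [rate_zero B hB, mul_zero]
        refine rate_zero _ ?_
        have h1 : Cls.mk (FAlg.of k (A ⊗[k] B)) = 0 := by
          rw [← Cls.mul_mk, Cls.mk_eq_zero.mpr hB, mul_zero]
        exact Cls.mk_eq_zero.mp h1
    · rw [not_nontrivial_iff_subsingleton] at hA
      rw [rate_zero A hA, zero_mul]
      refine rate_zero _ ?_
      have h1 : Cls.mk (FAlg.of k (A ⊗[k] B)) = 0 := by
        rw [← Cls.mul_mk, Cls.mk_eq_zero.mpr hA, zero_mul]
      exact Cls.mk_eq_zero.mp h1
  closed A B f hf := rate_mono L (Obt.closed A B f hf)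
  image A B f hf := rate_mono L (Obt.image A B f hf)
  degeneration A B hd := rate_mono L (Obt.degeneration A B hd)
  smoothable A hs := by
    have h1 := rate_mono L (Obt.smoothable A hs)
    by_cases hA : Nontrivial A
    · have h2 : Nontrivial (Cls.pts k (Module.finrank k A)) := by
        have h3 : 0 < Module.finrank k A := Module.finrank_pos
        have : Nonempty (Fin (Module.finrank k A)) := ⟨⟨0, h3⟩⟩
        exact inferInstanceAs (Nontrivial (Fin (Module.finrank k A) → k))
      obtain ⟨φ, h3, h4⟩ := exists_max L (Cls.pts k (Module.finrank k A))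
      rw [← h4, h3.pts] at h1
      exact h1
    · rw [not_nontrivial_iff_subsingleton] at hA
      rw [rate_zero A hA]
      positivity

/-- when the rate is additive -/
theorem tfae (L : Lem) :
    List.TFAE [∀ A B : FAlg k, Nontrivial A → Nontrivial B → rate k (A × B) = rate k A + rate k B,
      ∀ A B : FAlg k, Nontrivial A → Nontrivial B → rate k (A ⊗[k] B) = rate k A * rate k B,
      Spectral k fun A => rate k A,
      ∃ φ : FAlg k → ℝ, Spectral k φ ∧ ∀ ψ : FAlg k → ℝ, Spectral k ψ → ∀ A, ψ A ≤ φ A] := by
  tfae_have 1 → 3 := rate_spectral L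
  tfae_have 3 → 4 := by
    intro h
    refine ⟨_, h, fun ψ hψ A => ?_⟩
    by_cases hA : Nontrivial A
    · exact le_rate hψ A
    · rw [not_nontrivial_iff_subsingleton] at hA
      change ψ A ≤ rate k A
      rw [hψ.sub A hA, rate_zero A hA]
  tfae_have 4 → 1 := by
    rintro ⟨φ, h1, h2⟩ A B hA hB
    rw [(add_iff L A B).1]
    have h3 : ∀ (C : FAlg k), Nontrivial C → φ C = rate k C := by
      intro C hC
      obtain ⟨ψ, h4, h5⟩ := exists_max L C
      refine le_antisymm (le_rate h1 C) ?_
      rw [← h5]
      exact h2 ψ h4 C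
    exact ⟨φ, h1, h3 A hA, h3 B hB⟩
  tfae_have 1 → 2 := by
    intro h A B hA hB
    rw [(add_iff L A B).2, ← (add_iff L A B).1]
    exact h A B hA hB
  tfae_have 2 → 1 := by
    intro h A B hA hB
    rw [(add_iff L A B).1, ← (add_iff L A B).2]
    exact h A B hA hB
  tfae_finish

omit [IsAlgClosed k] in
/-- the degree is a spectral point -/
theorem deg_spectral : Spectral k fun A => (Module.finrank k A : ℝ) where
  nonneg A := by positivity
  point := by
    change ((Module.finrank k k : ℕ) : ℝ) = 1
    rw [Module.finrank_self, Nat.cast_one]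
  union A B := by
    change ((Module.finrank k (A × B) : ℕ) : ℝ) = _
    rw [Module.finrank_prod, Nat.cast_add]
  product A B := by
    change ((Module.finrank k (A ⊗[k] B) : ℕ) : ℝ) = _
    rw [Module.finrank_tensorProduct, Nat.cast_mul]
  closed A B f hf := by
    exact_mod_cast LinearMap.finrank_le_finrank_of_surjective (f := f.toLinearMap) hf
  image A B f hf := by
    exact_mod_cast LinearMap.finrank_le_finrank_of_injective (f := f.toLinearMap) hf
  degeneration A B hd := by
    have h : Pool.Agent.R566.DG.IsDeg k B A := hd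
    exact_mod_cast h.rank.2.le
  smoothable A hs := le_rfl

end Pool.Agent.H858.AS
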