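import Pool.Agent.H858.AS.Spec

/-!
# Dimensions of the spaces of `q`-th powers
-/

set_option autoImplicit false

namespace Pool.Agent.H858.AS

open TensorProduct

namespace FA

variable {k : Type} [Field k]

/-- the span of the `q`-th powers -/
def W (k : Type) [Field k] (q : ℕ) (A : Type) [CommRing A] [Algebra k A] : Submodule k A :=
  Submodule.span k (Set.range fun a : A => a ^ q)

theorem powDim_eq (q : ℕ) (A : Type) [CommRing A] [Algebra k A] :
    powDim k q A = Module.finrank k (W k q A) := rfl

theorem pow_mem (q : ℕ) {A : Type} [CommRing A] [Algebra k A] (a : A) : a ^ q ∈ W k q A :=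
  Submodule.subset_span ⟨a, rfl⟩

/-- additivity of the powers -/
theorem add_pow_q (p e : ℕ) [Fact p.Prime] [CharP k p] {R : Type} [CommRing R] [Algebra k R]
    (x y : R) : (x + y) ^ p ^ e = x ^ p ^ e + y ^ p ^ e := by
  rcases subsingleton_or_nontrivial R with h | h
  · exact Subsingleton.elim _ _
  · have : CharP R p := charP_of_injective_algebraMap (algebraMap k R).injective p
    exact add_pow_char_pow x y p e

theorem W_self (q : ℕ) : powDim k q k = 1 := by
  rw [powDim_eq]
  have h : W k q k = ⊤ := by
    rw [eq_top_iff]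
    intro x _
    have h1 : (1 : k) ∈ W k q k := by
      have := pow_mem (k := k) q (1 : k)
      rwa [one_pow] at this
    have := (W k q k).smul_mem x h1
    rwa [smul_eq_mul, mul_one] at this
  rw [h, finrank_top, Module.finrank_self]

theorem W_prod (q : ℕ) (hq : q ≠ 0) (A B : Type) [CommRing A] [Algebra k A] [Module.Finite k A]
    [CommRing B] [Algebra k B] [Module.Finite k B] :
    powDim k q (A × B) = powDim k q A + powDim k q B := by
  rw [powDim_eq, powDim_eq, powDim_eq]
  have h : W k q (A × B) = LinearMap.range ((W k q A).subtype.prodMap (W k q B).subtype) := by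
    apply le_antisymm
    · refine Submodule.span_le.2 ?_
      rintro _ ⟨⟨a, b⟩, rfl⟩
      exact ⟨(⟨a ^ q, pow_mem q a⟩, ⟨b ^ q, pow_mem q b⟩), rfl⟩
    · rintro _ ⟨⟨⟨a, ha⟩, ⟨b, hb⟩⟩, rfl⟩
      show (a, b) ∈ W k q (A × B)
      have h1 : ∀ a ∈ W k q A, ((a, 0) : A × B) ∈ W k q (A × B) := by
        intro a ha
        have h2 : (W k q A).map (LinearMap.inl k A B) ≤ W k q (A × B) := by
          unfold W
          rw [Submodule.map_span, Submodule.span_le]
          rintro _ ⟨_, ⟨a, rfl⟩, rfl⟩
          refine Submodule.subset_span ⟨(a, 0), ?_⟩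
          simp [Prod.pow_mk, zero_pow hq]
        exact h2 ⟨a, ha, rfl⟩
      have h1' : ∀ b ∈ W k q B, ((0, b) : A × B) ∈ W k q (A × B) := by
        intro b hb
        have h2 : (W k q B).map (LinearMap.inr k A B) ≤ W k q (A × B) := by
          unfold W
          rw [Submodule.map_span, Submodule.span_le]
          rintro _ ⟨_, ⟨b, rfl⟩, rfl⟩
          refine Submodule.subset_span ⟨(0, b), ?_⟩
          simp [Prod.pow_mk, zero_pow hq]
        exact h2 ⟨b, hb, rfl⟩
      have h3 := (W k q (A × B)).add_mem (h1 a ha) (h1' b hb)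
      rwa [Prod.mk_add_mk, add_zero, zero_add] at h3
  rw [h, LinearMap.finrank_range_of_inj, Module.finrank_prod]
  rw [LinearMap.coe_prodMap]
  exact Function.Injective.prodMap (Submodule.injective_subtype _) (Submodule.injective_subtype _)

theorem W_tensor (p e : ℕ) [Fact p.Prime] [CharP k p] (A B : Type) [CommRing A] [Algebra k A]
    [Module.Finite k A] [CommRing B] [Algebra k B] [Module.Finite k B] :
    powDim k (p ^ e) (A ⊗[k] B) = powDim k (p ^ e) A * powDim k (p ^ e) B := by
  have hq : p ^ e ≠ 0 := pow_ne_zero _ (Fact.out : p.Prime).ne_zero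
  rw [powDim_eq, powDim_eq, powDim_eq]
  have h : W k (p ^ e) (A ⊗[k] B) =
      LinearMap.range (TensorProduct.map (W k (p ^ e) A).subtype (W k (p ^ e) B).subtype) := by
    apply le_antisymm
    · refine Submodule.span_le.2 ?_
      rintro _ ⟨x, rfl⟩
      show x ^ p ^ e ∈ _
      induction x with
      | zero => rw [zero_pow hq]; exact Submodule.zero_mem _
      | tmul a b =>
        rw [Algebra.TensorProduct.tmul_pow]
        exact ⟨(⟨a ^ p ^ e, pow_mem _ a⟩ : W k (p ^ e) A) ⊗ₜ[k]
          (⟨b ^ p ^ e, pow_mem _ b⟩ : W k (p ^ e) B), rfl⟩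
      | add x y hx hy =>
        rw [add_pow_q (k := k) p e]
        exact Submodule.add_mem _ hx hy
    · rintro _ ⟨t, rfl⟩
      induction t with
      | zero => rw [map_zero]; exact Submodule.zero_mem _
      | tmul a b =>
        rw [TensorProduct.map_tmul]
        have h1 : TensorProduct.mk k A B a.1 b.1 ∈
            Submodule.map₂ (TensorProduct.mk k A B) (W k (p ^ e) A) (W k (p ^ e) B) :=
          Submodule.apply_mem_map₂ _ a.2 b.2
        have h2 : Submodule.map₂ (TensorProduct.mk k A B) (W k (p ^ e) A) (W k (p ^ e) B) ≤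
            W k (p ^ e) (A ⊗[k] B) := by
          unfold W
          rw [Submodule.map₂_span_span, Submodule.span_le]
          rintro _ ⟨_, ⟨a, rfl⟩, _, ⟨b, rfl⟩, rfl⟩
          refine Submodule.subset_span ⟨a ⊗ₜ b, ?_⟩
          exact Algebra.TensorProduct.tmul_pow _ _ _
        exact h2 h1
      | add x y hx hy =>
        rw [map_add]
        exact Submodule.add_mem _ hx hy
  rw [h, LinearMap.finrank_range_of_inj, Module.finrank_tensorProduct]
  exact TensorProduct.map_injective_of_flat_flat _ _ (Submodule.injective_subtype _)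
    (Submodule.injective_subtype _)

end FA

open FA

theorem frobA : S_F1 := by
  intro k _ _ p e _ _ A B _ _ _ _ _ _
  have hq : p ^ e ≠ 0 := pow_ne_zero _ (Fact.out : p.Prime).ne_zero
  refine ⟨W_self _, W_prod _ hq A B, W_tensor p e A B, Submodule.finrank_le _, fun f hf => ?_,
    fun f hf => ?_⟩
  · have h1 : W k (p ^ e) A ≤ (W k (p ^ e) B).map f.toLinearMap := by
      refine Submodule.span_le.2 ?_
      rintro _ ⟨a, rfl⟩
      obtain ⟨b, rfl⟩ := hf a
      exact ⟨b ^ p ^ e, pow_mem _ b, map_pow f b _⟩
    exact (Submodule.finrank_mono h1).trans (Submodule.finrank_map_le _ _)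
  · have h1 : (W k (p ^ e) A).map f.toLinearMap ≤ W k (p ^ e) B := by
      unfold W
      rw [Submodule.map_span, Submodule.span_le]
      rintro _ ⟨_, ⟨a, rfl⟩, rfl⟩
      exact Submodule.subset_span ⟨f a, (map_pow f a _).symm⟩
    have h2 := (Submodule.equivMapOfInjective f.toLinearMap hf (W k (p ^ e) A)).finrank_eq
    exact h2.le.trans (Submodule.finrank_mono h1)

end Pool.Agent.H858.AS
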