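import Pool.Agent.H858.AS.Spec

/-!
# Project AS, job FB: Frobenius dimensions of degenerations
-/

set_option autoImplicit false

namespace Pool.Agent.H858.AS

open TensorProduct PowerSeries

namespace FB

theorem pow_basis (k : Type) [Field k] (q : ℕ) (A : Type) [CommRing A] [Algebra k A]
    [Module.Finite k A] :
    ∃ x : Fin (powDim k q A) → A, LinearIndependent k (fun i => x i ^ q) ∧
      Submodule.span k (Set.range fun i => x i ^ q) =
        Submodule.span k (Set.range fun a : A => a ^ q) := by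
  obtain ⟨f, hf1, hf2, hf3⟩ :=
    Submodule.exists_fun_fin_finrank_span_eq k (Set.range fun a : A => a ^ q)
  choose x hx using hf1
  have h : f = fun i => x i ^ q := funext fun i => (hx i).symm
  rw [h] at hf2 hf3
  exact ⟨x, hf3, hf2⟩

theorem indep_lift (k : Type) [Field k] (𝒜 A₀ : Type) [CommRing 𝒜] [Algebra k⟦X⟧ 𝒜]
    [Module.Free k⟦X⟧ 𝒜] [CommRing A₀] [Algebra k A₀] (π : 𝒜 →+* A₀)
    (hπ : ∀ c : k⟦X⟧, π (algebraMap k⟦X⟧ 𝒜 c) = algebraMap k A₀ (PowerSeries.constantCoeff c))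
    {d : ℕ} (y : Fin d → 𝒜) (hy : LinearIndependent k (fun i => π (y i))) :
    LinearIndependent k⟦X⟧ y := by
  have hX : ∀ z : 𝒜, (PowerSeries.X : k⟦X⟧) • z = 0 → z = 0 := fun z hz =>
    (smul_eq_zero.1 hz).resolve_left PowerSeries.X_ne_zero
  have key : ∀ (m : ℕ) (c : Fin d → k⟦X⟧), ∑ i, c i • y i = 0 →
      ∀ i, (PowerSeries.X : k⟦X⟧) ^ m ∣ c i := by
    intro m
    induction m with
    | zero =>
      intro c _ i
      rw [pow_zero]
      exact one_dvd _
    | succ m ih =>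
      intro c hc
      have h1 : ∀ i, PowerSeries.constantCoeff (c i) = 0 := by
        have h2 := congrArg π hc
        rw [map_sum, map_zero] at h2
        have h3 : ∑ i, PowerSeries.constantCoeff (c i) • π (y i) = 0 := by
          rw [← h2]
          refine Finset.sum_congr rfl fun i _ => ?_
          rw [Algebra.smul_def, Algebra.smul_def, map_mul, hπ]
        exact Fintype.linearIndependent_iff.1 hy _ h3
      have h4 : ∀ i, ∃ c', c i = PowerSeries.X * c' := fun i => PowerSeries.X_dvd_iff.2 (h1 i)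
      choose c' hc' using h4
      have h5 : ∑ i, c' i • y i = 0 := by
        apply hX
        rw [Finset.smul_sum, ← hc]
        refine Finset.sum_congr rfl fun i _ => ?_
        rw [hc' i, mul_smul]
      intro i
      rw [hc' i, pow_succ']
      exact mul_dvd_mul_left _ (ih c' h5 i)
  rw [Fintype.linearIndependent_iff]
  intro c hc i
  ext m
  rw [map_zero]
  exact PowerSeries.X_pow_dvd_iff.1 (key (m + 1) c hc i) m (Nat.lt_succ_self m)

theorem generic_indep (k : Type) [Field k] (𝒜 : Type) [CommRing 𝒜] [Algebra k⟦X⟧ 𝒜] {d : ℕ}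
    (y : Fin d → 𝒜) (hy : LinearIndependent k⟦X⟧ y) :
    LinearIndependent (LaurentSeries k)
      (fun i => (1 : LaurentSeries k) ⊗ₜ[k⟦X⟧] y i) := by
  have : IsLocalizedModule (Submonoid.powers (PowerSeries.X : k⟦X⟧))
      (TensorProduct.mk k⟦X⟧ (LaurentSeries k) 𝒜 1) :=
    (isLocalizedModule_iff_isBaseChange _ (LaurentSeries k) _).2 (TensorProduct.isBaseChange _ _ _)
  exact hy.of_isLocalizedModule (LaurentSeries k) (Submonoid.powers (PowerSeries.X : k⟦X⟧))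
    (TensorProduct.mk k⟦X⟧ (LaurentSeries k) 𝒜 1)

theorem tmul_eq (k : Type) [Field k] (A : Type) [CommRing A] [Algebra k A] (c : LaurentSeries k)
    (r : k⟦X⟧) (a : A) :
    c ⊗ₜ[k⟦X⟧] (r ⊗ₜ[k] a) = (r • c) • ((1 : LaurentSeries k) ⊗ₜ[k⟦X⟧] ((1 : k⟦X⟧) ⊗ₜ[k] a)) := by
  rw [TensorProduct.smul_tmul', smul_eq_mul, mul_one, TensorProduct.smul_tmul,
    TensorProduct.smul_tmul', smul_eq_mul, mul_one]

theorem pow_mem (k : Type) [Field k] (p e : ℕ) [Fact p.Prime] [CharP k p] (A : Type) [CommRing A]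
    [Algebra k A] (z : LaurentSeries k ⊗[k⟦X⟧] (k⟦X⟧ ⊗[k] A)) :
    z ^ (p ^ e) ∈ Submodule.span (LaurentSeries k) (Set.range fun a : A =>
      (1 : LaurentSeries k) ⊗ₜ[k⟦X⟧] ((1 : k⟦X⟧) ⊗ₜ[k] (a ^ (p ^ e)))) := by
  have hq : p ^ e ≠ 0 := pow_ne_zero _ (Fact.out : p.Prime).ne_zero
  rcases subsingleton_or_nontrivial (LaurentSeries k ⊗[k⟦X⟧] (k⟦X⟧ ⊗[k] A)) with hs | hs
  · rw [Subsingleton.elim (z ^ (p ^ e)) 0]
    exact Submodule.zero_mem _
  have c1 : CharP (LaurentSeries k) p := charP_of_injective_ringHom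
    (f := (algebraMap k⟦X⟧ (LaurentSeries k)).comp (algebraMap k k⟦X⟧)) (RingHom.injective _) p
  have hch : CharP (LaurentSeries k ⊗[k⟦X⟧] (k⟦X⟧ ⊗[k] A)) p := charP_of_injective_algebraMap
    (R := LaurentSeries k) (FaithfulSMul.algebraMap_injective _ _) p
  set W := Submodule.span (LaurentSeries k) (Set.range fun a : A =>
    (1 : LaurentSeries k) ⊗ₜ[k⟦X⟧] ((1 : k⟦X⟧) ⊗ₜ[k] (a ^ (p ^ e)))) with hW
  have h0 : (0 : LaurentSeries k ⊗[k⟦X⟧] (k⟦X⟧ ⊗[k] A)) ^ (p ^ e) ∈ W := by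
    have h : (0 : LaurentSeries k ⊗[k⟦X⟧] (k⟦X⟧ ⊗[k] A)) ^ (p ^ e) = 0 :=
      zero_pow (M₀ := LaurentSeries k ⊗[k⟦X⟧] (k⟦X⟧ ⊗[k] A)) hq
    rw [h]
    exact W.zero_mem
  have hadd : ∀ u v : LaurentSeries k ⊗[k⟦X⟧] (k⟦X⟧ ⊗[k] A), u ^ (p ^ e) ∈ W → v ^ (p ^ e) ∈ W →
      (u + v) ^ (p ^ e) ∈ W := by
    intro u v h1 h2
    have h : (u + v) ^ (p ^ e) = u ^ (p ^ e) + v ^ (p ^ e) := add_pow_char_pow u v p e
    rw [h]
    exact W.add_mem h1 h2
  induction z using TensorProduct.induction_on with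
  | zero => exact h0
  | tmul c y =>
    induction y using TensorProduct.induction_on with
    | zero =>
      rw [TensorProduct.tmul_zero]
      exact h0
    | tmul r a =>
      rw [tmul_eq, smul_pow, Algebra.TensorProduct.tmul_pow, Algebra.TensorProduct.tmul_pow,
        one_pow, one_pow]
      exact Submodule.smul_mem _ _ (Submodule.subset_span ⟨a, rfl⟩)
    | add y y' h1 h2 =>
      rw [TensorProduct.tmul_add]
      exact hadd _ _ h1 h2
  | add u v h1 h2 => exact hadd u v h1 h2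

theorem span_le (k : Type) [Field k] (q : ℕ) (A : Type) [CommRing A] [Algebra k A] {d : ℕ}
    (x : Fin d → A) (hx : Submodule.span k (Set.range fun i => x i ^ q) =
      Submodule.span k (Set.range fun a : A => a ^ q)) :
    Submodule.span (LaurentSeries k) (Set.range fun a : A =>
      (1 : LaurentSeries k) ⊗ₜ[k⟦X⟧] ((1 : k⟦X⟧) ⊗ₜ[k] (a ^ q))) ≤
    Submodule.span (LaurentSeries k) (Set.range fun i =>
      (1 : LaurentSeries k) ⊗ₜ[k⟦X⟧] ((1 : k⟦X⟧) ⊗ₜ[k] (x i ^ q))) := by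
  rw [Submodule.span_le]
  rintro _ ⟨a, rfl⟩
  have ha : a ^ q ∈ Submodule.span k (Set.range fun i => x i ^ q) := by
    rw [hx]
    exact Submodule.subset_span ⟨a, rfl⟩
  simp only [SetLike.mem_coe]
  generalize a ^ q = b at ha
  induction ha using Submodule.span_induction with
  | mem w hw =>
    obtain ⟨i, rfl⟩ := hw
    exact Submodule.subset_span ⟨i, rfl⟩
  | zero =>
    rw [TensorProduct.tmul_zero, TensorProduct.tmul_zero]
    exact Submodule.zero_mem _
  | add w w' _ _ h1 h2 =>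
    rw [TensorProduct.tmul_add, TensorProduct.tmul_add]
    exact Submodule.add_mem _ h1 h2
  | smul c w _ h1 =>
    rw [← TensorProduct.smul_tmul, tmul_eq]
    exact Submodule.smul_mem _ _ h1

end FB

theorem frobB : S_F2 := by
  intro k _ _ p e _ _ A A₀ _ _ _ _ _ _ hdeg
  obtain ⟨𝒜, _, _, _, _, ⟨Φ⟩, π, hπs, hπ, -⟩ := hdeg
  obtain ⟨x₀, hx₀, -⟩ := FB.pow_basis k (p ^ e) A₀
  obtain ⟨x, -, hx⟩ := FB.pow_basis k (p ^ e) A
  choose y hy using fun i => hπs (x₀ i)
  have h1 : LinearIndependent k (fun i => π (y i ^ (p ^ e))) := by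
    simp only [map_pow, hy]
    exact hx₀
  have h2 := FB.generic_indep k 𝒜 _ (FB.indep_lift k 𝒜 A₀ π hπ _ h1)
  have h3 := h2.map' Φ.toLinearMap (LinearMap.ker_eq_bot.2 Φ.injective)
  have h4 := finrank_span_eq_card h3
  rw [Fintype.card_fin] at h4
  rw [← h4]
  have h5 : Submodule.span (LaurentSeries k) (Set.range (Φ.toLinearMap ∘
      fun i => (1 : LaurentSeries k) ⊗ₜ[k⟦X⟧] (y i ^ (p ^ e)))) ≤
      Submodule.span (LaurentSeries k) (Set.range fun i =>
        (1 : LaurentSeries k) ⊗ₜ[k⟦X⟧] ((1 : k⟦X⟧) ⊗ₜ[k] (x i ^ (p ^ e)))) := by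
    refine le_trans ?_ (FB.span_le k (p ^ e) A x hx)
    rw [Submodule.span_le]
    rintro _ ⟨i, rfl⟩
    have h6 : (Φ.toLinearMap ∘ fun i => (1 : LaurentSeries k) ⊗ₜ[k⟦X⟧] (y i ^ (p ^ e))) i =
        (Φ ((1 : LaurentSeries k) ⊗ₜ[k⟦X⟧] y i)) ^ (p ^ e) := by
      rw [← map_pow, Algebra.TensorProduct.tmul_pow, one_pow]
      rfl
    rw [h6]
    exact FB.pow_mem k p e A _
  have hfin : Module.Finite (LaurentSeries k) (Submodule.span (LaurentSeries k)
      (Set.range fun i => (1 : LaurentSeries k) ⊗ₜ[k⟦X⟧] ((1 : k⟦X⟧) ⊗ₜ[k] (x i ^ (p ^ e))))) :=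
    FiniteDimensional.span_of_finite _ (Set.finite_range _)
  refine (Submodule.finrank_mono h5).trans ?_
  refine (finrank_range_le_card (R := LaurentSeries k) _).trans ?_
  rw [Fintype.card_fin]

end Pool.Agent.H858.AS
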