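import Pool.Agent.H858.AS.Spec

/-!
# Project AS, job FC: the Frobenius dimension of truncated polynomial rings
-/

set_option autoImplicit false

namespace Pool.Agent.H858.AS

open Polynomial

namespace FC

theorem lt_iff {q n i : ℕ} (hq : 0 < q) : i < (n + q - 1) / q ↔ q * i < n := by
  rw [Nat.lt_iff_add_one_le, Nat.le_div_iff_mul_le hq, add_mul, one_mul, mul_comm i q]
  omega

theorem mk_pow_eq {k : Type} [Field k] (p e n : ℕ) [Fact p.Prime] [CharP k p] (f : k[X]) :
    (Ideal.Quotient.mk (Ideal.span {(X : k[X]) ^ n}) f) ^ (p ^ e) ∈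
      Submodule.span k (Set.range fun i : Fin ((n + p ^ e - 1) / p ^ e) =>
        Ideal.Quotient.mk (Ideal.span {(X : k[X]) ^ n}) (X ^ (p ^ e * (i : ℕ)))) := by
  have hq : 0 < p ^ e := pow_pos (Fact.out : p.Prime).pos e
  rw [← map_pow]
  have h1 : f ^ (p ^ e) = ∑ i ∈ Finset.range (f.natDegree + 1),
      C (f.coeff i ^ (p ^ e)) * X ^ (p ^ e * i) := by
    conv_lhs => rw [f.as_sum_range_C_mul_X_pow]
    rw [sum_pow_char_pow p e]
    refine Finset.sum_congr rfl fun i _ => ?_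
    rw [mul_pow, ← C_pow, ← pow_mul, mul_comm i]
  rw [h1, map_sum]
  refine Submodule.sum_mem _ fun i _ => ?_
  have h2 : Ideal.Quotient.mk (Ideal.span {(X : k[X]) ^ n}) (C (f.coeff i ^ (p ^ e)) *
      X ^ (p ^ e * i)) = (f.coeff i ^ (p ^ e)) •
      Ideal.Quotient.mk (Ideal.span {(X : k[X]) ^ n}) (X ^ (p ^ e * i)) := by
    rw [← smul_eq_C_mul]
    rfl
  rw [h2]
  refine Submodule.smul_mem _ _ ?_
  by_cases hi : p ^ e * i < n
  · exact Submodule.subset_span ⟨⟨i, (lt_iff hq).2 hi⟩, rfl⟩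
  · have h3 : Ideal.Quotient.mk (Ideal.span {(X : k[X]) ^ n}) (X ^ (p ^ e * i)) = 0 := by
      rw [Ideal.Quotient.eq_zero_iff_mem, Ideal.mem_span_singleton]
      exact pow_dvd_pow _ (not_lt.1 hi)
    rw [h3]
    exact Submodule.zero_mem _

theorem indep {k : Type} [Field k] (q n : ℕ) (hq : 0 < q) :
    LinearIndependent k (fun i : Fin ((n + q - 1) / q) =>
      Ideal.Quotient.mk (Ideal.span {(X : k[X]) ^ n}) (X ^ (q * (i : ℕ)))) := by
  rw [Fintype.linearIndependent_iff]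
  intro c hc j
  have h1 : Ideal.Quotient.mk (Ideal.span {(X : k[X]) ^ n}) (∑ i : Fin ((n + q - 1) / q),
      c i • (X : k[X]) ^ (q * (i : ℕ))) = 0 := by
    rw [map_sum, ← hc]
    rfl
  rw [Ideal.Quotient.eq_zero_iff_mem, Ideal.mem_span_singleton, X_pow_dvd_iff] at h1
  have h2 := h1 (q * (j : ℕ)) ((lt_iff hq).1 j.2)
  rw [finsetSum_coeff, Finset.sum_eq_single j] at h2
  · rw [coeff_smul, coeff_X_pow_self, smul_eq_mul, mul_one] at h2
    exact h2
  · intro i _ hij
    rw [coeff_smul, coeff_X_pow, if_neg, smul_zero]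
    intro h
    exact hij (Fin.ext (Nat.eq_of_mul_eq_mul_left hq h).symm)
  · intro h
    exact absurd (Finset.mem_univ j) h

end FC

theorem frobC : S_F3 := by
  intro k _ _ p e n _ _
  have hq : 0 < p ^ e := pow_pos (Fact.out : p.Prime).pos e
  rw [powDim]
  have h1 : Submodule.span k (Set.range fun a : k[X] ⧸ Ideal.span {(X : k[X]) ^ n} =>
      a ^ (p ^ e)) = Submodule.span k (Set.range fun i : Fin ((n + p ^ e - 1) / p ^ e) =>
        Ideal.Quotient.mk (Ideal.span {(X : k[X]) ^ n}) (X ^ (p ^ e * (i : ℕ)))) := by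
    apply le_antisymm
    · rw [Submodule.span_le]
      rintro _ ⟨a, rfl⟩
      obtain ⟨f, rfl⟩ := Ideal.Quotient.mk_surjective a
      exact FC.mk_pow_eq p e n f
    · rw [Submodule.span_le]
      rintro _ ⟨i, rfl⟩
      refine Submodule.subset_span ⟨Ideal.Quotient.mk _ (X ^ (i : ℕ)), ?_⟩
      simp only
      rw [← map_pow, ← pow_mul, mul_comm]
  rw [h1, finrank_span_eq_card (FC.indep (p ^ e) n hq), Fintype.card_fin]

end Pool.Agent.H858.AS
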