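import Pool.Agent.H858.AS.Spec

/-!
# Lemma E (helper997)
-/

set_option autoImplicit false

namespace Pool.Agent.H858.AS

open Filter Topology

namespace LE

section
variable {S : Type 1} [CommSemiring S] {P : S → S → Prop} (hP : SPre P)

include hP

theorem mul2 {u v u' v' : S} (h : P u v) (h' : P u' v') : P (u * u') (v * v') := by
  have h1 := hP.mul u v u' h
  have h2 := hP.mul u' v' v h'
  rw [mul_comm u' v, mul_comm v' v] at h2
  exact hP.trans _ _ _ h1 h2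

theorem powle {u v : S} (h : P u v) (K : ℕ) : P (u ^ K) (v ^ K) := by
  induction K with
  | zero => rw [pow_zero, pow_zero]; exact hP.refl 1
  | succ K ih => rw [pow_succ, pow_succ]; exact mul2 hP ih h

theorem natle {r R : ℕ} (h : r ≤ R) : P (r : S) (R : S) := by
  have h1 := hP.add 0 ((R - r : ℕ) : S) (r : S) (hP.zero _)
  rw [zero_add, ← Nat.cast_add, Nat.sub_add_cancel h] at h1
  exact h1

theorem pow_ne {b : S} (hb : b ≠ 0) (j : ℕ) : b ^ j ≠ 0 := by
  intro h0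
  obtain ⟨t, ht⟩ := hP.arch 1 b hb
  have h1 := powle hP ht j
  rw [one_pow, mul_pow, h0, mul_zero] at h1
  have h2 := hP.nat 1 0 (by rw [Nat.cast_one, Nat.cast_zero]; exact h1)
  omega

theorem iter {A B : S} {C y : ℕ} (hC : 1 ≤ C) (h : P ((C : S) * A) ((C : S) * (y : S) * B))
    (K : ℕ) : P (A ^ K) ((C : S) * (y : S) ^ K * B ^ K) := by
  have h1 : ∀ K : ℕ, P ((C : S) * A ^ K) ((C : S) * (y : S) ^ K * B ^ K) := by
    intro K
    induction K with
    | zero => rw [pow_zero, pow_zero, pow_zero, mul_one, mul_one]; exact hP.refl _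
    | succ K ih =>
      have h2 := hP.mul _ _ A ih
      have h3 := hP.mul _ _ ((y : S) ^ K * B ^ K) h
      have e1 : (C : S) * A ^ K * A = (C : S) * A ^ (K + 1) := by ring
      have e2 : (C : S) * (y : S) ^ K * B ^ K * A = (C : S) * A * ((y : S) ^ K * B ^ K) := by ring
      have e3 : (C : S) * (y : S) * B * ((y : S) ^ K * B ^ K) =
          (C : S) * (y : S) ^ (K + 1) * B ^ (K + 1) := by ring
      rw [e1, e2] at h2
      rw [e3] at h3
      exact hP.trans _ _ _ h2 h3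
  have h2 := hP.mul _ _ (A ^ K) (natle hP hC)
  rw [Nat.cast_one, one_mul] at h2
  exact hP.trans _ _ _ h2 (h1 K)

theorem unif (a : S) {b : S} (hb : b ≠ 0) (m : ℕ) :
    ∃ R : ℕ, ∀ j < m, P (a ^ j) ((R : S) * b ^ j) := by
  induction m with
  | zero => exact ⟨0, fun j hj => absurd hj (Nat.not_lt_zero j)⟩
  | succ m ih =>
    obtain ⟨R, hR⟩ := ih
    obtain ⟨r, hr⟩ := hP.arch (a ^ m) (b ^ m) (pow_ne hP hb m)
    refine ⟨max R r, fun j hj => ?_⟩
    rcases Nat.lt_succ_iff_lt_or_eq.1 hj with h | h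
    · exact hP.trans _ _ _ (hR j h) (hP.mul _ _ _ (natle hP (le_max_left _ _)))
    · rw [h]
      exact hP.trans _ _ _ hr (hP.mul _ _ _ (natle hP (le_max_right _ _)))

end

end LE

open LE

theorem lemE : S_E := by
  intro S _ P hP a b n c x μ ν hb hn hc hμ hμν hx h
  obtain ⟨ν', h1, h2⟩ := exists_between hμν
  have hμ0 : 0 < μ := lt_of_lt_of_le one_pos hμ
  have hν'1 : 1 < ν' := lt_of_le_of_lt hμ h1
  have hν'0 : 0 < ν' := lt_trans one_pos hν'1
  have hc0 : (0 : ℝ) < c := by exact_mod_cast hc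
  -- choice of `M`
  obtain ⟨M, hM⟩ := pow_unbounded_of_one_lt 2 (show 1 < ν' / μ by rwa [one_lt_div hμ0])
  have hM1 : 1 ≤ M := by
    rcases Nat.eq_zero_or_pos M with h0 | h0
    · rw [h0, pow_zero] at hM; norm_num at hM
    · exact h0
  have hnM : M ≤ n * M := Nat.le_mul_of_pos_left M hn
  have hM2 : 2 * μ ^ (n * M) ≤ ν' ^ (n * M) := by
    have h3 : 2 ≤ (ν' / μ) ^ (n * M) :=
      hM.le.trans (pow_le_pow_right₀ (by rw [one_le_div hμ0]; exact h1.le) hnM)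
    rwa [div_pow, le_div_iff₀ (by positivity)] at h3
  obtain ⟨y, hy⟩ : ∃ y : ℕ, y = ⌈((x : ℝ) / c) ^ M⌉₊ := ⟨_, rfl⟩
  have hy1 : x ^ M ≤ c ^ M * y := by
    have h3 : ((x : ℝ) / c) ^ M ≤ y := by rw [hy]; exact Nat.le_ceil _
    rw [div_pow, div_le_iff₀ (by positivity)] at h3
    have h4 : ((x ^ M : ℕ) : ℝ) ≤ ((c ^ M * y : ℕ) : ℝ) := by
      push_cast
      linarith
    exact_mod_cast h4
  have hy2 : (y : ℝ) ≤ ν' ^ (n * M) := by
    have h3 : (y : ℝ) < ((x : ℝ) / c) ^ M + 1 := by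
      rw [hy]
      exact Nat.ceil_lt_add_one (by positivity)
    have h4 : ((x : ℝ) / c) ^ M ≤ μ ^ (n * M) := by
      rw [pow_mul]
      apply pow_le_pow_left₀ (by positivity)
      rw [div_le_iff₀ hc0]
      exact hx
    have h5 : 1 ≤ μ ^ (n * M) := one_le_pow₀ hμ
    linarith
  have hcM : 1 ≤ c ^ M := Nat.one_le_pow _ _ hc
  have hstep : P (((c ^ M : ℕ) : S) * a ^ (n * M)) (((c ^ M : ℕ) : S) * (y : S) * b ^ (n * M)) := by
    have h3 := powle hP h M
    have e1 : ((c : S) * a ^ n) ^ M = ((c ^ M : ℕ) : S) * a ^ (n * M) := by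
      rw [mul_pow, ← pow_mul, Nat.cast_pow]
    have e2 : ((x : S) * b ^ n) ^ M = ((x ^ M : ℕ) : S) * b ^ (n * M) := by
      rw [mul_pow, ← pow_mul, Nat.cast_pow]
    rw [e1, e2] at h3
    have h4 := hP.mul _ _ (b ^ (n * M)) (natle hP hy1)
    rw [Nat.cast_mul] at h4
    exact hP.trans _ _ _ h3 h4
  have hit := iter hP hcM hstep
  obtain ⟨R, hR⟩ := unif hP a hb (n * M)
  have hpos : 0 < n * M := lt_of_lt_of_le hM1 hnM
  obtain ⟨L, hL⟩ := pow_unbounded_of_one_lt (((c ^ M : ℕ) : ℝ) * R)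
    (show 1 < ν / ν' by rwa [one_lt_div hν'0])
  refine ⟨L, fun l hl => ⟨c ^ M * y ^ (l / (n * M)) * R, ?_, ?_⟩⟩
  · have h3 : ((c ^ M : ℕ) : ℝ) * R * ν' ^ l ≤ ν ^ l := by
      have h4 : ((c ^ M : ℕ) : ℝ) * R ≤ (ν / ν') ^ l :=
        hL.le.trans (pow_le_pow_right₀ (by rw [one_le_div hν'0]; exact h2.le) hl)
      rwa [div_pow, le_div_iff₀ (by positivity)] at h4
    have h5 : (y : ℝ) ^ (l / (n * M)) ≤ ν' ^ l := by
      calc (y : ℝ) ^ (l / (n * M)) ≤ (ν' ^ (n * M)) ^ (l / (n * M)) :=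
            pow_le_pow_left₀ (Nat.cast_nonneg _) hy2 _
        _ = ν' ^ (n * M * (l / (n * M))) := (pow_mul _ _ _).symm
        _ ≤ ν' ^ l := pow_le_pow_right₀ hν'1.le (Nat.mul_div_le l (n * M))
    calc (((c ^ M * y ^ (l / (n * M)) * R : ℕ)) : ℝ)
        = ((c ^ M : ℕ) : ℝ) * R * (y : ℝ) ^ (l / (n * M)) := by push_cast; ring
      _ ≤ ((c ^ M : ℕ) : ℝ) * R * ν' ^ l := mul_le_mul_of_nonneg_left h5 (by positivity)
      _ ≤ ν ^ l := h3
  · have h3 := mul2 hP (hit (l / (n * M))) (hR (l % (n * M)) (Nat.mod_lt l hpos))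
    have e1 : (a ^ (n * M)) ^ (l / (n * M)) * a ^ (l % (n * M)) = a ^ l := by
      rw [← pow_mul, ← pow_add, Nat.div_add_mod]
    have e2 : ((c ^ M : ℕ) : S) * (y : S) ^ (l / (n * M)) * (b ^ (n * M)) ^ (l / (n * M)) *
        ((R : S) * b ^ (l % (n * M))) = ((c ^ M * y ^ (l / (n * M)) * R : ℕ) : S) * b ^ l := by
      have e3 : b ^ l = (b ^ (n * M)) ^ (l / (n * M)) * b ^ (l % (n * M)) := by
        rw [← pow_mul, ← pow_add, Nat.div_add_mod]
      rw [e3]
      push_cast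
      ring
    rw [e1, e2] at h3
    exact h3

end Pool.Agent.H858.AS
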