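import Pool.Agent.H858.AS.Spec

/-! # Points of finite algebras -/

set_option autoImplicit false
set_option linter.all false

namespace Pool.Agent.H858.AS

open Filter Topology TensorProduct PowerSeries

namespace PA

section
variable {k : Type} [Field k] {A B : Type} [CommRing A] [Algebra k A] [CommRing B] [Algebra k B]

theorem indep : LinearIndependent k (fun χ : A →ₐ[k] k => (χ.toLinearMap : Module.Dual k A)) :=
  linearIndependent_algHom_toLinearMap k A k

instance fin [Module.Finite k A] : Finite (A →ₐ[k] k) :=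
  (indep (k := k) (A := A)).finite

theorem le_finrank [Module.Finite k A] : numPts k A ≤ Module.finrank k A := by
  unfold numPts
  haveI : Fintype (A →ₐ[k] k) := Fintype.ofFinite _
  rw [Nat.card_eq_fintype_card, ← Subspace.dual_finrank_eq]
  exact (indep (k := k) (A := A)).fintype_card_le_finrank

theorem sep [Module.Finite k A] {ι : Type} [Finite ι] (e : ι ≃ (A →ₐ[k] k)) :
    Function.Surjective (Pi.algHom k (fun _ : ι => k) (fun i => e i) : A →ₐ[k] (ι → k)) := by
  haveI : Fintype ι := Fintype.ofFinite _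
  classical
  set F : A →ₗ[k] (ι → k) := (Pi.algHom k (fun _ : ι => k) (fun i => e i) : A →ₐ[k] (ι → k)).toLinearMap
    with hF
  have h1 : Function.Surjective F := by
    rw [← LinearMap.dualMap_injective_iff, injective_iff_map_eq_zero]
    intro φ hφ
    have h2 : ∑ i, φ (Pi.single i 1) • ((e i).toLinearMap : Module.Dual k A) = 0 := by
      ext a
      have h3 : φ (F a) = 0 := by
        have := DFunLike.congr_fun hφ a
        exact this
      have h4 : F a = ∑ i, (e i a) • (Pi.single i 1 : ι → k) := by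
        funext j
        rw [Finset.sum_apply, Finset.sum_eq_single j]
        · rw [Pi.smul_apply, Pi.single_eq_same, smul_eq_mul, mul_one]
          rfl
        · intro i _ hij
          rw [Pi.smul_apply, Pi.single_eq_of_ne hij.symm, smul_zero]
        · intro h; exact absurd (Finset.mem_univ _) h
      rw [h4, map_sum] at h3
      rw [LinearMap.sum_apply, LinearMap.zero_apply, ← h3]
      refine Finset.sum_congr rfl fun i _ => ?_
      rw [LinearMap.smul_apply, map_smul, smul_eq_mul, smul_eq_mul, mul_comm]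
      rfl
    have h5 : LinearIndependent k (fun i : ι => ((e i).toLinearMap : Module.Dual k A)) :=
      (indep (k := k) (A := A)).comp e e.injective
    have h6 := Fintype.linearIndependent_iff.1 h5 (fun i => φ (Pi.single i 1)) h2
    refine LinearMap.pi_ext fun i x => ?_
    have h7 : (Pi.single i x : ι → k) = x • Pi.single i 1 := by
      rw [← Pi.single_smul, smul_eq_mul, mul_one]
    rw [h7, map_smul, h6 i, smul_zero, LinearMap.zero_apply]
  exact h1

/-- characters of a product -/
def sumMap : (A →ₐ[k] k) ⊕ (B →ₐ[k] k) → (A × B →ₐ[k] k)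
  | Sum.inl χ => χ.comp (AlgHom.fst k A B)
  | Sum.inr χ => χ.comp (AlgHom.snd k A B)

theorem sumMap_inj : Function.Injective (sumMap (k := k) (A := A) (B := B)) := by
  rintro (χ | χ) (ψ | ψ) h
  · congr 1
    ext a
    exact DFunLike.congr_fun h (a, (0 : B))
  · have h1 : χ 1 = ψ 0 := DFunLike.congr_fun h ((1 : A), (0 : B))
    rw [map_one, map_zero] at h1
    exact absurd h1 one_ne_zero
  · have h1 : χ 0 = ψ 1 := DFunLike.congr_fun h ((1 : A), (0 : B))
    rw [map_one, map_zero] at h1
    exact absurd h1 zero_ne_one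
  · congr 1
    ext a
    exact DFunLike.congr_fun h ((0 : A), a)

theorem sumMap_surj : Function.Surjective (sumMap (k := k) (A := A) (B := B)) := by
  intro φ
  have h1 : φ ((1 : A), (0 : B)) * φ ((1 : A), (0 : B)) = φ ((1 : A), (0 : B)) := by
    rw [← map_mul, Prod.mk_mul_mk, mul_one, mul_zero]
  have h2 : φ ((1 : A), (0 : B)) + φ ((0 : A), (1 : B)) = 1 := by
    rw [← map_add, Prod.mk_add_mk, add_zero, zero_add]
    exact map_one φ
  have h3 : φ ((1 : A), (0 : B)) = 0 ∨ φ ((1 : A), (0 : B)) = 1 := by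
    have : φ ((1 : A), (0 : B)) * (φ ((1 : A), (0 : B)) - 1) = 0 := by
      rw [mul_sub, h1, mul_one, sub_self]
    rcases mul_eq_zero.1 this with h | h
    · exact Or.inl h
    · exact Or.inr (sub_eq_zero.1 h)
  rcases h3 with h | h
  · have h4 : φ ((0 : A), (1 : B)) = 1 := by rw [h, zero_add] at h2; exact h2
    refine ⟨Sum.inr (AlgHom.ofLinearMap (φ.toLinearMap.comp (LinearMap.inr k A B)) h4 ?_), ?_⟩
    · intro x y
      show φ ((0 : A), x * y) = φ ((0 : A), x) * φ ((0 : A), y)
      rw [← map_mul, Prod.mk_mul_mk, mul_zero]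
    · ext x
      show φ ((0 : A), x.2) = φ x
      have h5 : φ x = φ (x * ((0 : A), (1 : B))) := by rw [map_mul, h4, mul_one]
      rw [h5]
      obtain ⟨a, b⟩ := x
      rw [Prod.mk_mul_mk, mul_zero, mul_one]
  · refine ⟨Sum.inl (AlgHom.ofLinearMap (φ.toLinearMap.comp (LinearMap.inl k A B)) h ?_), ?_⟩
    · intro x y
      show φ (x * y, (0 : B)) = φ (x, (0 : B)) * φ (y, (0 : B))
      rw [← map_mul, Prod.mk_mul_mk, mul_zero]
    · ext x
      show φ (x.1, (0 : B)) = φ x
      have h5 : φ x = φ (x * ((1 : A), (0 : B))) := by rw [map_mul, h, mul_one]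
      rw [h5]
      obtain ⟨a, b⟩ := x
      rw [Prod.mk_mul_mk, mul_zero, mul_one]

theorem prod [Module.Finite k A] [Module.Finite k B] :
    numPts k (A × B) = numPts k A + numPts k B := by
  unfold numPts
  rw [← Nat.card_sum]
  exact (Nat.card_congr (Equiv.ofBijective _ ⟨sumMap_inj, sumMap_surj⟩)).symm

theorem tens [Module.Finite k A] [Module.Finite k B] :
    numPts k (A ⊗[k] B) = numPts k A * numPts k B := by
  unfold numPts
  rw [← Nat.card_prod]
  have e1 := Algebra.TensorProduct.liftEquiv (R := k) (S := k) (A := A) (B := B) (C := k)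
  have e2 : {fg : (A →ₐ[k] k) × (B →ₐ[k] k) // ∀ x y, Commute (fg.1 x) (fg.2 y)} ≃
      (A →ₐ[k] k) × (B →ₐ[k] k) :=
    Equiv.subtypeUnivEquiv fun fg x y => Commute.all _ _
  exact Nat.card_congr (e1.symm.trans e2)

/-- extension of characters -/
theorem extend [IsAlgClosed k] [Module.Finite k A] [Module.Finite k B] (f : A →ₐ[k] B)
    (hf : Function.Injective f) (χ : A →ₐ[k] k) : ∃ ψ : B →ₐ[k] k, ψ.comp f = χ := by
  letI : Algebra A B := f.toRingHom.toAlgebra
  haveI : IsScalarTower k A B := IsScalarTower.of_algebraMap_eq fun c => (f.commutes c).symm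
  haveI : Module.Finite A B := Module.Finite.of_restrictScalars_finite k A B
  haveI : Algebra.IsIntegral A B := Algebra.IsIntegral.of_finite A B
  have hsur : Function.Surjective (χ : A →+* k) := fun c => ⟨algebraMap k A c, χ.commutes c⟩
  haveI hmax : (RingHom.ker (χ : A →+* k)).IsMaximal := RingHom.ker_isMaximal_of_surjective _ hsur
  have hker : RingHom.ker (algebraMap A B) ≤ RingHom.ker (χ : A →+* k) := by
    have h1 : RingHom.ker (algebraMap A B) = ⊥ := (RingHom.injective_iff_ker_eq_bot _).1 hf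
    rw [h1]
    exact bot_le
  obtain ⟨Q, hQ, hQc⟩ := Ideal.exists_ideal_over_maximal_of_isIntegral (S := B)
    (RingHom.ker (χ : A →+* k)) hker
  haveI := hQ
  haveI : Algebra.IsIntegral k (B ⧸ Q) := Algebra.IsIntegral.of_finite k (B ⧸ Q)
  have hbij : Function.Bijective (algebraMap k (B ⧸ Q)) :=
    IsAlgClosed.algebraMap_bijective_of_isIntegral
  have hbij' : Function.Bijective (Algebra.ofId k (B ⧸ Q)) := hbij
  set E : k ≃ₐ[k] (B ⧸ Q) := AlgEquiv.ofBijective (Algebra.ofId k (B ⧸ Q)) hbij' with hE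
  refine ⟨(E.symm : (B ⧸ Q) →ₐ[k] k).comp (Ideal.Quotient.mkₐ k Q), ?_⟩
  ext a
  show E.symm (Ideal.Quotient.mk Q (f a)) = χ a
  rw [AlgEquiv.symm_apply_eq]
  show Ideal.Quotient.mk Q (f a) = algebraMap k (B ⧸ Q) (χ a)
  have h2 : a - algebraMap k A (χ a) ∈ RingHom.ker (χ : A →+* k) := by
    rw [RingHom.mem_ker]
    show χ (a - algebraMap k A (χ a)) = 0
    rw [map_sub, χ.commutes]
    exact sub_self _
  rw [← hQc, Ideal.mem_comap] at h2
  have h3 : algebraMap A B (a - algebraMap k A (χ a)) = f a - algebraMap k B (χ a) := by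
    show f (a - algebraMap k A (χ a)) = _
    rw [map_sub, f.commutes]
  rw [h3] at h2
  have h4 := (Ideal.Quotient.mk_eq_mk_iff_sub_mem _ _).2 h2
  rw [h4]
  rfl

end

end PA

open PA in
theorem ptsA : S_P1 := by
  intro k _ _ A B _ _ _ _ _ _
  refine ⟨prod, tens, le_finrank, fun f hf => ?_, fun f hf => ?_, ?_⟩
  · unfold numPts
    refine Nat.card_le_card_of_injective (fun χ : A →ₐ[k] k => χ.comp f) ?_
    intro χ ψ h
    ext a
    obtain ⟨b, rfl⟩ := hf a
    exact DFunLike.congr_fun h b
  · unfold numPts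
    exact Nat.card_le_card_of_surjective (fun ψ : B →ₐ[k] k => ψ.comp f) fun χ => extend f hf χ
  · exact ⟨_, sep (Finite.equivFin (A →ₐ[k] k)).symm⟩

end Pool.Agent.H858.AS
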