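import Pool.Agent.H858.AS.Spec

/-!
# Points of degenerations (helper287, for helper858)

Let `a ∈ A₀` take different values at the points of `A₀`, `x ∈ 𝒜` a lift of `a`. The values `y i` of `x`
at the points of the generic fibre `K ⊗ A` (`K = k((X))`), one for every point of `A`, are integral over
`k⟦X⟧`, so they are in `k⟦X⟧`. The product of all `x - y i` is nilpotent in the generic
fibre, hence in `𝒜`, hence modulo `X`: every value of `a` is some `y i (0)`.
-/

set_option autoImplicit false

namespace Pool.Agent.H858.AS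

open Filter Topology TensorProduct PowerSeries

namespace PB

/-- the values at the points -/
def ev (k : Type) [Field k] (A : Type) [CommRing A] [Algebra k A] :
    A →ₗ[k] ((A →ₐ[k] k) → k) :=
  LinearMap.pi fun φ => φ.toLinearMap

theorem ev_apply {k : Type} [Field k] {A : Type} [CommRing A] [Algebra k A] (a : A)
    (φ : A →ₐ[k] k) : ev k A a φ = φ a := rfl

theorem ev_surj (k : Type) [Field k] (A : Type) [CommRing A] [Algebra k A] [Module.Finite k A] :
    Function.Surjective (ev k A) := by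
  classical
  rw [← LinearMap.range_eq_top]
  by_contra hne
  obtain ⟨f, hf0, hf⟩ := Submodule.exists_le_ker_of_lt_top _ (lt_top_iff_ne_top.2 hne)
  have hli := linearIndependent_toLinearMap k A k
  rw [Fintype.linearIndependent_iff] at hli
  have h1 : ∑ φ : A →ₐ[k] k, f (Pi.single φ 1) • φ.toLinearMap = 0 := by
    ext a
    have h2 : f (ev k A a) = 0 := by
      have : ev k A a ∈ LinearMap.range (ev k A) := ⟨a, rfl⟩
      exact hf this
    have h3 : ev k A a = ∑ φ : A →ₐ[k] k, (φ a) • (Pi.single φ 1 : (A →ₐ[k] k) → k) := by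
      funext ψ
      rw [Finset.sum_apply, Finset.sum_eq_single ψ]
      · simp [ev_apply]
      · intro φ _ hφ
        simp [hφ.symm]
      · intro h
        exact absurd (Finset.mem_univ _) h
    rw [h3, map_sum] at h2
    simp only [map_smul, smul_eq_mul] at h2
    simp only [LinearMap.sum_apply, LinearMap.smul_apply, AlgHom.toLinearMap_apply, smul_eq_mul,
      LinearMap.zero_apply]
    rw [← h2]
    exact Finset.sum_congr rfl fun φ _ => mul_comm _ _
  have h4 := hli _ h1
  apply hf0
  refine LinearMap.pi_ext' fun φ => ?_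
  ext
  simpa using h4 φ

theorem nilp (k : Type) [Field k] [IsAlgClosed k] (A : Type) [CommRing A] [Algebra k A]
    [Module.Finite k A] (a : A) (ha : ∀ φ : A →ₐ[k] k, φ a = 0) : IsNilpotent a := by
  rw [← mem_nilradical, nilradical_eq_sInf, Submodule.mem_sInf]
  intro p hp
  have hp' : Ideal.IsPrime p := hp
  have hbij : Function.Bijective (algebraMap k (A ⧸ p)) :=
    IsAlgClosed.algebraMap_bijective_of_isIntegral
  let e : k ≃ₐ[k] (A ⧸ p) := AlgEquiv.ofBijective (Algebra.ofId k (A ⧸ p)) hbij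
  have h1 := ha ((e.symm : (A ⧸ p) →ₐ[k] k).comp (Ideal.Quotient.mkₐ k p))
  have h2 : e.symm (Ideal.Quotient.mk p a) = 0 := h1
  have h3 : Ideal.Quotient.mk p a = 0 := by
    have := congrArg e h2
    rwa [AlgEquiv.apply_symm_apply, map_zero] at this
  exact Ideal.Quotient.eq_zero_iff_mem.1 h3

section gen

variable (k : Type) [Field k] (A : Type) [CommRing A] [Algebra k A]

/-- the generic fibre of the constant family -/
abbrev M : Type := LaurentSeries k ⊗[k⟦X⟧] (k⟦X⟧ ⊗[k] A)

/-- the constants -/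
noncomputable def iota : A →+* M k A :=
  (Algebra.TensorProduct.includeRight (R := k⟦X⟧) (A := LaurentSeries k)
    (B := k⟦X⟧ ⊗[k] A)).toRingHom.comp
    (Algebra.TensorProduct.includeRight (R := k) (A := k⟦X⟧) (B := A)).toRingHom

theorem iota_apply (a : A) :
    iota k A a = (1 : LaurentSeries k) ⊗ₜ[k⟦X⟧] ((1 : k⟦X⟧) ⊗ₜ[k] a) := rfl

variable {k A}

/-- the points of the generic fibre -/
noncomputable def psi (φ : A →ₐ[k] k) : M k A →ₐ[LaurentSeries k] LaurentSeries k :=
  Algebra.TensorProduct.lift (AlgHom.id (LaurentSeries k) (LaurentSeries k))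
    ((Algebra.ofId k⟦X⟧ (LaurentSeries k)).comp
      (Algebra.TensorProduct.lift (AlgHom.id k⟦X⟧ k⟦X⟧) ((Algebra.ofId k k⟦X⟧).comp φ)
        (fun _ _ => Commute.all _ _)))
    (fun _ _ => Commute.all _ _)

theorem psi_tmul (φ : A →ₐ[k] k) (c : LaurentSeries k) (b : k⟦X⟧) (a : A) :
    psi φ (c ⊗ₜ (b ⊗ₜ a)) =
      c * algebraMap k⟦X⟧ (LaurentSeries k) (b * algebraMap k k⟦X⟧ (φ a)) := by
  rfl

theorem smul_iota (r : k) (a : A) :
    algebraMap k⟦X⟧ (LaurentSeries k) (algebraMap k k⟦X⟧ r) • iota k A a = iota k A (r • a) := by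
  rw [iota_apply, iota_apply, TensorProduct.smul_tmul', smul_eq_mul, mul_one,
    Algebra.algebraMap_eq_smul_one, TensorProduct.smul_tmul, TensorProduct.smul_tmul', smul_eq_mul,
    mul_one, Algebra.algebraMap_eq_smul_one, TensorProduct.smul_tmul]

theorem gen_nil [IsAlgClosed k] [Module.Finite k A] (z : M k A)
    (hz : ∀ φ : A →ₐ[k] k, psi φ z = 0) : IsNilpotent z := by
  classical
  choose e he using fun φ : A →ₐ[k] k => ev_surj k A (Pi.single φ 1)
  have he' : ∀ φ ψ : A →ₐ[k] k, ψ (e φ) = if ψ = φ then 1 else 0 := by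
    intro φ ψ
    have := congrFun (he φ) ψ
    rw [ev_apply, Pi.single_apply] at this
    exact this
  let T : M k A → M k A := fun z => z - ∑ φ : A →ₐ[k] k, psi φ z • iota k A (e φ)
  have hT0 : T 0 = 0 := by simp [T]
  have hTadd : ∀ x y, T (x + y) = T x + T y := by
    intro x y
    simp only [T, map_add, add_smul, Finset.sum_add_distrib]
    abel
  have hTsmul : ∀ (c : LaurentSeries k) x, T (c • x) = c • T x := by
    intro c x
    simp only [T, map_smul, smul_sub, Finset.smul_sum, smul_eq_mul, mul_smul]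
  have hmem : ∀ (c : LaurentSeries k) (x : M k A), x ∈ nilradical (M k A) →
      c • x ∈ nilradical (M k A) := by
    intro c x hx
    have h : c • x = algebraMap (LaurentSeries k) (M k A) c * x := Algebra.smul_def c x
    rw [h]
    exact Ideal.mul_mem_left _ _ hx
  have hTi : ∀ a : A, T (iota k A a) ∈ nilradical (M k A) := by
    intro a
    have h1 : T (iota k A a) = iota k A (a - ∑ φ : A →ₐ[k] k, φ a • e φ) := by
      simp only [T]
      rw [map_sub, map_sum]
      congr 1
      refine Finset.sum_congr rfl fun φ _ => ?_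
      rw [← smul_iota, iota_apply k A a, psi_tmul, one_mul, one_mul]
    have h2 : IsNilpotent (a - ∑ φ : A →ₐ[k] k, φ a • e φ) := by
      apply nilp k A
      intro ψ
      rw [map_sub, map_sum]
      simp only [map_smul, smul_eq_mul, he']
      simp
    rw [h1, mem_nilradical]
    obtain ⟨n, hn⟩ := h2
    exact ⟨n, by rw [← map_pow, hn, map_zero]⟩
  have hTw : ∀ w : k⟦X⟧ ⊗[k] A, T ((1 : LaurentSeries k) ⊗ₜ w) ∈ nilradical (M k A) := by
    intro w
    induction w using TensorProduct.induction_on with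
    | zero => rw [TensorProduct.tmul_zero, hT0]; exact Ideal.zero_mem _
    | add x y hx hy => rw [TensorProduct.tmul_add, hTadd]; exact Ideal.add_mem _ hx hy
    | tmul b a =>
      have h1 : (1 : LaurentSeries k) ⊗ₜ[k⟦X⟧] (b ⊗ₜ[k] a) =
          algebraMap k⟦X⟧ (LaurentSeries k) b • iota k A a := by
        rw [iota_apply, TensorProduct.smul_tmul', smul_eq_mul, mul_one,
          Algebra.algebraMap_eq_smul_one, TensorProduct.smul_tmul, TensorProduct.smul_tmul',
          smul_eq_mul, mul_one]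
      rw [h1, hTsmul]
      exact hmem _ _ (hTi a)
  have hTall : ∀ z : M k A, T z ∈ nilradical (M k A) := by
    intro z
    induction z using TensorProduct.induction_on with
    | zero => rw [hT0]; exact Ideal.zero_mem _
    | add x y hx hy => rw [hTadd]; exact Ideal.add_mem _ hx hy
    | tmul c w =>
      have h1 : c ⊗ₜ[k⟦X⟧] w = c • ((1 : LaurentSeries k) ⊗ₜ[k⟦X⟧] w) := by
        rw [TensorProduct.smul_tmul', smul_eq_mul, mul_one]
      rw [h1, hTsmul]
      exact hmem _ _ (hTw w)
  have hTz := hTall z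
  have hz' : T z = z := by
    simp [T, hz]
  rw [hz', mem_nilradical] at hTz
  exact hTz

end gen

end PB

theorem ptsB : S_P2 := by
  intro k _ _ A A₀ _ _ _ _ _ _ hdeg
  classical
  obtain ⟨𝒜, _, _, hfin, hfree, ⟨E⟩, π, hsurj, hconst, -⟩ := hdeg
  -- a separating element and a lift
  have hinf : Infinite k := IsAlgClosed.instInfinite
  obtain ⟨c, hc⟩ : ∃ c : (A₀ →ₐ[k] k) → k, Function.Injective c :=
    ⟨fun φ => Infinite.natEmbedding k (Fintype.equivFin _ φ), fun φ ψ h =>
      (Fintype.equivFin _).injective (Fin.ext ((Infinite.natEmbedding k).injective h))⟩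
  obtain ⟨a, ha⟩ := PB.ev_surj k A₀ c
  have ha' : ∀ χ : A₀ →ₐ[k] k, χ a = c χ := fun χ => congrFun ha χ
  obtain ⟨x, hx⟩ := hsurj a
  -- the points of the generic fibre
  let j : 𝒜 →ₐ[k⟦X⟧] PB.M k A :=
    (E.toAlgHom.restrictScalars k⟦X⟧).comp
      (Algebra.TensorProduct.includeRight (R := k⟦X⟧) (A := LaurentSeries k) (B := 𝒜))
  have hj : Function.Injective j := by
    refine E.injective.comp ?_
    exact Algebra.TensorProduct.includeRight_injective
      (IsFractionRing.injective k⟦X⟧ (LaurentSeries k))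
  let θ : (A →ₐ[k] k) → 𝒜 →ₐ[k⟦X⟧] LaurentSeries k := fun φ =>
    ((PB.psi φ).restrictScalars k⟦X⟧).comp j
  have hint : ∀ φ, ∃ g : k⟦X⟧, algebraMap k⟦X⟧ (LaurentSeries k) g = θ φ x := by
    intro φ
    have h1 : IsIntegral k⟦X⟧ x := Algebra.IsIntegral.isIntegral x
    exact IsIntegrallyClosed.isIntegral_iff.1 (h1.map (θ φ))
  choose g hg using hint
  set P : 𝒜 := ∏ φ : A →ₐ[k] k, (x - algebraMap k⟦X⟧ 𝒜 (g φ)) with hP
  have hθP : ∀ φ, PB.psi φ (j P) = 0 := by
    intro φ
    have h1 : PB.psi φ (j P) = θ φ P := rfl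
    rw [h1, hP, map_prod]
    refine Finset.prod_eq_zero (Finset.mem_univ φ) ?_
    rw [map_sub, (θ φ).commutes, hg, sub_self]
  obtain ⟨s, hs⟩ := PB.gen_nil (j P) hθP
  have hPs : P ^ s = 0 := by
    apply hj
    have h1 : j (P ^ s) = (j P) ^ s := map_pow j.toRingHom P s
    have h2 : j 0 = 0 := map_zero j.toRingHom
    rw [h1, h2]
    exact hs
  have hroot : ∀ χ : A₀ →ₐ[k] k, ∃ φ : A →ₐ[k] k, c χ = PowerSeries.constantCoeff (g φ) := by
    intro χ
    have h1 : χ (π (P ^ s)) = 0 := by rw [hPs, map_zero, map_zero]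
    rw [map_pow, map_pow] at h1
    have h2 := eq_zero_of_pow_eq_zero h1
    rw [hP, map_prod, map_prod, Finset.prod_eq_zero_iff] at h2
    obtain ⟨φ, -, hφ⟩ := h2
    refine ⟨φ, ?_⟩
    rw [map_sub, map_sub, hx, hconst, ha', AlgHom.commutes, sub_eq_zero] at hφ
    exact hφ
  choose f hf using hroot
  unfold numPts
  refine Nat.card_le_card_of_injective f fun χ χ' h => hc ?_
  rw [hf χ, hf χ', h]

end Pool.Agent.H858.AS
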