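import Pool.Agent.H858.AS.Cor
import Pool.Agent.H858.AS.LA
import Pool.Agent.H858.AS.LB
import Pool.Agent.H858.AS.LD
import Pool.Agent.H858.AS.LF
import Pool.Agent.H858.AS.LE
import Pool.Agent.H858.AS.PA
import Pool.Agent.H858.AS.PB
import Pool.Agent.H858.AS.FA
import Pool.Agent.H858.AS.FB
import Pool.Agent.H858.AS.FC

/-!
# Explicit spectral points
-/

set_option autoImplicit false

namespace Pool.Agent.H858.AS

open TensorProduct PowerSeries Filter Topology
open Pool.Agent.H826R3.SM Pool.Agent.TH671.DU

theorem lem : Lem := ⟨lemA, lemB, lemC, lemD, lemE, lemF⟩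

variable {k : Type} [Field k] [IsAlgClosed k]

/-- the number of points is a spectral point -/
theorem pts_spectral : Spectral k fun A => (numPts k A : ℝ) where
  nonneg A := by positivity
  point := by
    have h1 := (ptsA k k k).2.2.1
    rw [Module.finrank_self] at h1
    have h2 : 1 ≤ numPts k k := by
      have : Nonempty (k →ₐ[k] k) := ⟨AlgHom.id k k⟩
      have h3 : Finite (k →ₐ[k] k) := inferInstance
      exact Nat.card_pos
    have h4 : numPts k k = 1 := le_antisymm h1 h2
    change ((numPts k k : ℕ) : ℝ) = 1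
    rw [h4, Nat.cast_one]
  union A B := by
    change ((numPts k (A × B) : ℕ) : ℝ) = _
    rw [(ptsA k A B).1, Nat.cast_add]
  product A B := by
    change ((numPts k (A ⊗[k] B) : ℕ) : ℝ) = _
    rw [(ptsA k A B).2.1, Nat.cast_mul]
  closed A B f hf := by exact_mod_cast (ptsA k A B).2.2.2.1 f hf
  image A B f hf := by exact_mod_cast (ptsA k A B).2.2.2.2.1 f hf
  degeneration A B hd := by exact_mod_cast ptsB k B A hd
  smoothable A _ := by exact_mod_cast (ptsA k A A).2.2.1

/-- the number of points is the least spectral point -/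
theorem pts_le {φ : FAlg k → ℝ} (h : Spectral k φ) (A : FAlg k) : (numPts k A : ℝ) ≤ φ A := by
  obtain ⟨f, hf⟩ := (ptsA k A A).2.2.2.2.2
  rw [← h.pts (numPts k A)]
  exact h.closed (Cls.pts k (numPts k A)) A f hf

/-- which sets of reduced points are obtained from a scheme -/
theorem obt_pts_iff (A : FAlg k) (r : ℕ) : Obt k (Cls.pts k r) A ↔ r ≤ numPts k A := by
  constructor
  · intro h
    have h1 := (pts_spectral (k := k)).obt h
    have h2 := (pts_spectral (k := k)).pts r
    have h3 : (r : ℝ) ≤ numPts k A := by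
      rw [← h2]
      exact h1
    exact_mod_cast h3
  · intro h
    obtain ⟨f, hf⟩ := (ptsA k A A).2.2.2.2.2
    have h1 : Obt k (Cls.pts k (numPts k A)) A := Obt.closed _ A f hf
    refine Obt.trans _ _ _ ?_ h1
    have h2 := po_nat (k := k) h
    rw [Cls.natCast_mk, Cls.natCast_mk, po_iff] at h2
    exact h2

/-- Frobenius points -/
theorem frob_spectral (p e : ℕ) [Fact p.Prime] [CharP k p] :
    Spectral k fun A => (powDim k (p ^ e) A : ℝ) where
  nonneg A := by positivity
  point := by
    change ((powDim k (p ^ e) k : ℕ) : ℝ) = 1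
    rw [(frobA k p e k k).1, Nat.cast_one]
  union A B := by
    change ((powDim k (p ^ e) (A × B) : ℕ) : ℝ) = _
    rw [(frobA k p e A B).2.1, Nat.cast_add]
  product A B := by
    change ((powDim k (p ^ e) (A ⊗[k] B) : ℕ) : ℝ) = _
    rw [(frobA k p e A B).2.2.1, Nat.cast_mul]
  closed A B f hf := by exact_mod_cast (frobA k p e A B).2.2.2.2.1 f hf
  image A B f hf := by exact_mod_cast (frobA k p e A B).2.2.2.2.2 f hf
  degeneration A B hd := by exact_mod_cast frobB k p e B A hd
  smoothable A _ := by exact_mod_cast (frobA k p e A A).2.2.2.1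

/-- truncated polynomial rings -/
theorem finite_trunc (n : ℕ) :
    Module.Finite k (Polynomial k ⧸ Ideal.span {(Polynomial.X : Polynomial k) ^ n}) :=
  (Polynomial.monic_X_pow n).finite_quotient

end Pool.Agent.H858.AS
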