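import Mathlib

/-!
# The semiring of the isomorphism classes of finite algebras
-/

set_option autoImplicit false

namespace Pool.Agent.H858.AS

open TensorProduct

/-- A finite-dimensional commutative `k`-algebra; the ring of a finite scheme. -/
structure FAlg (k : Type) [Field k] : Type 1 where
  /-- the underlying type -/
  carrier : Type
  [ring : CommRing carrier]
  [alg : Algebra k carrier]
  [fin : Module.Finite k carrier]

attribute [instance] FAlg.ring FAlg.alg FAlg.fin

namespace FAlg

variable {k : Type} [Field k]

instance : CoeSort (FAlg k) Type := ⟨FAlg.carrier⟩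

variable (k) in
/-- bundling -/
abbrev of (A : Type) [CommRing A] [Algebra k A] [Module.Finite k A] : FAlg k := ⟨A⟩

/-- isomorphism classes -/
instance setoid (k : Type) [Field k] : Setoid (FAlg k) where
  r A B := Nonempty (A ≃ₐ[k] B)
  iseqv := ⟨fun _ => ⟨AlgEquiv.refl⟩, fun ⟨e⟩ => ⟨e.symm⟩, fun ⟨e⟩ ⟨f⟩ => ⟨e.trans f⟩⟩

end FAlg

/-- The isomorphism classes of finite `k`-algebras. -/
def Cls (k : Type) [Field k] : Type 1 := Quotient (FAlg.setoid k)

namespace Cls

variable {k : Type} [Field k]

/-- the class -/
def mk (A : FAlg k) : Cls k := Quotient.mk (FAlg.setoid k) A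

theorem mk_eq {A B : FAlg k} (e : A ≃ₐ[k] B) : mk A = mk B := Quotient.sound ⟨e⟩

theorem mk_iff {A B : FAlg k} : mk A = mk B ↔ Nonempty (A ≃ₐ[k] B) := Quotient.eq

theorem ind {p : Cls k → Prop} (h : ∀ A, p (mk A)) (a : Cls k) : p a := Quotient.inductionOn a h

/-- disjoint unions -/
def addC : Cls k → Cls k → Cls k :=
  Quotient.map₂ (fun A B => FAlg.of k (A × B))
    (fun _ _ ⟨e⟩ _ _ ⟨f⟩ => ⟨AlgEquiv.prodCongr e f⟩)

/-- products -/
noncomputable def mulC : Cls k → Cls k → Cls k :=
  Quotient.map₂ (fun A B => FAlg.of k (A ⊗[k] B))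
    (fun _ _ ⟨e⟩ _ _ ⟨f⟩ => ⟨Algebra.TensorProduct.congr e f⟩)

/-- `A × B ≃ B × A` -/
def prodComm' (A B : Type) [CommRing A] [Algebra k A] [CommRing B] [Algebra k B] :
    (A × B) ≃ₐ[k] (B × A) :=
  { RingEquiv.prodComm with commutes' := fun _ => rfl }

/-- `(A × B) × C ≃ A × (B × C)` -/
def prodAssoc' (A B C : Type) [CommRing A] [Algebra k A] [CommRing B] [Algebra k B]
    [CommRing C] [Algebra k C] : ((A × B) × C) ≃ₐ[k] (A × (B × C)) :=
  { Equiv.prodAssoc A B C with
    map_mul' := fun _ _ => rfl
    map_add' := fun _ _ => rfl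
    commutes' := fun _ => rfl }

/-- the zero algebra -/
abbrev zeroAlg (k : Type) [Field k] : FAlg k := FAlg.of k PUnit.{1}

theorem subsingleton_tensor (A : Type) [CommRing A] [Algebra k A] (B : Type) [CommRing B]
    [Algebra k B] [Subsingleton A] : Subsingleton (A ⊗[k] B) := by
  refine subsingleton_of_zero_eq_one ?_
  rw [Algebra.TensorProduct.one_def, Subsingleton.elim (1 : A) 0, TensorProduct.zero_tmul]

/-- two zero algebras are isomorphic -/
def subEquiv (A B : Type) [CommRing A] [Algebra k A] [CommRing B]
    [Algebra k B] [Subsingleton A] [Subsingleton B] : A ≃ₐ[k] B :=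
  { toFun := fun _ => 0
    invFun := fun _ => 0
    left_inv := fun _ => Subsingleton.elim _ _
    right_inv := fun _ => Subsingleton.elim _ _
    map_mul' := fun _ _ => Subsingleton.elim _ _
    map_add' := fun _ _ => Subsingleton.elim _ _
    commutes' := fun _ => Subsingleton.elim _ _ }

instance : Add (Cls k) := ⟨addC⟩

instance : Zero (Cls k) := ⟨mk (zeroAlg k)⟩

noncomputable instance : Mul (Cls k) := ⟨mulC⟩

instance : One (Cls k) := ⟨mk (FAlg.of k k)⟩

noncomputable instance : CommSemiring (Cls k) where
  add_assoc a b c := by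
    induction a using ind; induction b using ind; induction c using ind
    exact mk_eq (prodAssoc' _ _ _)
  zero_add a := by
    induction a using ind
    exact mk_eq (AlgEquiv.uniqueProd)
  add_zero a := by
    induction a using ind
    exact mk_eq (AlgEquiv.prodUnique)
  add_comm a b := by
    induction a using ind; induction b using ind
    exact mk_eq (prodComm' _ _)
  mul_assoc a b c := by
    induction a using ind; induction b using ind; induction c using ind
    exact mk_eq (Algebra.TensorProduct.assoc k k k _ _ _)
  one_mul a := by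
    induction a using ind
    exact mk_eq (Algebra.TensorProduct.lid k _)
  mul_one a := by
    induction a using ind
    exact mk_eq (Algebra.TensorProduct.rid k k _)
  mul_comm a b := by
    induction a using ind; induction b using ind
    exact mk_eq (Algebra.TensorProduct.comm k _ _)
  left_distrib a b c := by
    induction a using ind; induction b using ind; induction c using ind
    exact mk_eq (Algebra.TensorProduct.prodRight k k _ _ _)
  right_distrib a b c := by
    induction a using ind; induction b using ind; induction c using ind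
    refine mk_eq (((Algebra.TensorProduct.comm k _ _).trans
      (Algebra.TensorProduct.prodRight k k _ _ _)).trans
      (AlgEquiv.prodCongr (Algebra.TensorProduct.comm k _ _) (Algebra.TensorProduct.comm k _ _)))
  zero_mul a := by
    induction a using ind with
    | _ A =>
    have h1 : Subsingleton (PUnit.{1} ⊗[k] A) := subsingleton_tensor PUnit.{1} A
    exact mk_eq (A := FAlg.of k (PUnit.{1} ⊗[k] A)) (B := zeroAlg k) (subEquiv _ _)
  mul_zero a := by
    induction a using ind with
    | _ A =>
    have h1 : Subsingleton (A ⊗[k] PUnit.{1}) := by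
      have := subsingleton_tensor (k := k) PUnit.{1} A
      exact (Algebra.TensorProduct.comm k A PUnit.{1}).injective.subsingleton
    exact mk_eq (A := FAlg.of k (A ⊗[k] PUnit.{1})) (B := zeroAlg k) (subEquiv _ _)
  nsmul := nsmulRec
  npow := npowRec

theorem add_mk (A B : FAlg k) : mk A + mk B = mk (FAlg.of k (A × B)) := rfl

theorem mul_mk (A B : FAlg k) : mk A * mk B = mk (FAlg.of k (A ⊗[k] B)) := rfl

theorem zero_mk : (0 : Cls k) = mk (zeroAlg k) := rfl

theorem one_mk : (1 : Cls k) = mk (FAlg.of k k) := rfl

theorem mk_eq_zero {A : FAlg k} : mk A = 0 ↔ Subsingleton A := by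
  rw [zero_mk, mk_iff]
  constructor
  · rintro ⟨e⟩
    exact e.injective.subsingleton
  · intro h
    exact ⟨subEquiv _ _⟩

/-- `n` points -/
abbrev pts (k : Type) [Field k] (n : ℕ) : FAlg k := FAlg.of k (Fin n → k)

/-- `k ^ (n + 1) ≃ k ^ n × k` -/
noncomputable def ptsSucc (k : Type) [Field k] (n : ℕ) : (Fin (n + 1) → k) ≃ₐ[k] (Fin n → k) × k :=
  AlgEquiv.ofBijective
    (AlgHom.prod (AlgHom.pi (R := k) (A := fun _ : Fin n => k) fun i => Pi.evalAlgHom k (fun _ => k) i.castSucc)
      (Pi.evalAlgHom k (fun _ => k) (Fin.last n)))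
    (by
      constructor
      · intro x y h
        have h1 := congrArg Prod.fst h
        have h2 := congrArg Prod.snd h
        funext i
        refine Fin.lastCases h2 (fun i => ?_) i
        exact congrFun h1 i
      · rintro ⟨x, y⟩
        refine ⟨Fin.snoc (α := fun _ => k) x y, ?_⟩
        apply Prod.ext
        · funext i
          exact Fin.snoc_castSucc (α := fun _ => k) y x i
        · exact Fin.snoc_last (α := fun _ => k) y x)

theorem natCast_mk (n : ℕ) : (n : Cls k) = mk (pts k n) := by
  induction n with
  | zero =>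
    rw [Nat.cast_zero, zero_mk]
    have : Subsingleton (Fin 0 → k) := inferInstance
    exact mk_eq (subEquiv _ _)
  | succ n ih =>
    rw [Nat.cast_succ, ih, one_mk, add_mk]
    exact mk_eq (ptsSucc k n).symm

end Cls

end Pool.Agent.H858.AS
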