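import Pool.Graph.R_seed8.R566.DG.Gr
import Pool.Graph.R_seed8.R566.CV.Sub
import Pool.Agent.H858.AS.Ring
import Pool.Agent.H858.AS.Spec

/-!
# Spectral points of finite schemes
-/

set_option autoImplicit false

namespace Pool.Agent.H858.AS

open TensorProduct PowerSeries
open Pool.Agent.H826R3.SM Pool.Agent.TH671.DU

/-- `Obt k A B`: `Spec A` is obtained from `Spec B`. -/
inductive Obt (k : Type) [Field k] : FAlg k → FAlg k → Prop
  | closed (A B : FAlg k) (f : B →ₐ[k] A) (hf : Function.Surjective f) : Obt k A B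
  | image (A B : FAlg k) (f : A →ₐ[k] B) (hf : Function.Injective f) : Obt k A B
  | degeneration (A B : FAlg k) (h : IsDegeneration k B A) : Obt k A B
  | smoothable (A : FAlg k) (h : Smoothable k A) : Obt k A (Cls.pts k (Module.finrank k A))
  | trans (A B C : FAlg k) (h : Obt k A B) (h' : Obt k B C) : Obt k A C
  | union (A B C : FAlg k) (h : Obt k A B) : Obt k (FAlg.of k (A × C)) (FAlg.of k (B × C))
  | product (A B C : FAlg k) (h : Obt k A B) : Obt k (FAlg.of k (A ⊗[k] C)) (FAlg.of k (B ⊗[k] C))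

/-- Spectral points. -/
structure Spectral (k : Type) [Field k] (φ : FAlg k → ℝ) : Prop where
  nonneg : ∀ A, 0 ≤ φ A
  point : φ (FAlg.of k k) = 1
  union : ∀ A B : FAlg k, φ (FAlg.of k (A × B)) = φ A + φ B
  product : ∀ A B : FAlg k, φ (FAlg.of k (A ⊗[k] B)) = φ A * φ B
  closed : ∀ (A B : FAlg k) (f : B →ₐ[k] A), Function.Surjective f → φ A ≤ φ B
  image : ∀ (A B : FAlg k) (f : A →ₐ[k] B), Function.Injective f → φ A ≤ φ B
  degeneration : ∀ A B : FAlg k, IsDegeneration k B A → φ A ≤ φ B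
  smoothable : ∀ A : FAlg k, Smoothable k A → φ A ≤ Module.finrank k A

section basic

variable {k : Type} [Field k]

theorem Obt.iso {A B : FAlg k} (e : A ≃ₐ[k] B) : Obt k A B :=
  Obt.closed A B e.symm.toAlgHom e.symm.surjective

theorem Spectral.iso {φ : FAlg k → ℝ} (h : Spectral k φ) {A B : FAlg k} (e : A ≃ₐ[k] B) :
    φ A = φ B :=
  le_antisymm (h.closed A B e.symm.toAlgHom e.symm.surjective)
    (h.closed B A e.toAlgHom e.surjective)

theorem Spectral.sub {φ : FAlg k → ℝ} (h : Spectral k φ) (A : FAlg k) (hA : Subsingleton A) :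
    φ A = 0 := by
  have h1 := h.union A A
  have h2 : φ (FAlg.of k (A × A)) = φ A := h.iso (A := FAlg.of k (A × A)) (B := A)
    (Cls.subEquiv _ _)
  linarith

theorem Spectral.pts {φ : FAlg k → ℝ} (h : Spectral k φ) (n : ℕ) : φ (Cls.pts k n) = n := by
  induction n with
  | zero =>
    rw [Nat.cast_zero]
    exact h.sub _ (inferInstanceAs (Subsingleton (Fin 0 → k)))
  | succ n ih =>
    rw [h.iso (B := FAlg.of k ((Fin n → k) × k)) (Cls.ptsSucc k n),
      h.union (Cls.pts k n) (FAlg.of k k), ih, h.point]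
    push_cast
    ring

theorem Spectral.obt {φ : FAlg k → ℝ} (h : Spectral k φ) {A B : FAlg k} (hAB : Obt k A B) :
    φ A ≤ φ B := by
  induction hAB with
  | closed A B f hf => exact h.closed A B f hf
  | image A B f hf => exact h.image A B f hf
  | degeneration A B hd => exact h.degeneration A B hd
  | smoothable A hs =>
    rw [h.pts]
    exact h.smoothable A hs
  | trans A B C _ _ h1 h2 => exact h1.trans h2
  | union A B C _ h1 =>
    rw [h.union, h.union]
    linarith
  | product A B C _ h1 =>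
    rw [h.product, h.product]
    exact mul_le_mul_of_nonneg_right h1 (h.nonneg C)

/-- the preorder on classes -/
def PO (k : Type) [Field k] (a b : Cls k) : Prop := ∃ A B : FAlg k, a = Cls.mk A ∧ b = Cls.mk B ∧
  Obt k A B

theorem po_iff {A B : FAlg k} : PO k (Cls.mk A) (Cls.mk B) ↔ Obt k A B := by
  constructor
  · rintro ⟨A', B', h1, h2, h⟩
    obtain ⟨e⟩ := Cls.mk_iff.mp h1
    obtain ⟨f⟩ := Cls.mk_iff.mp h2
    exact ((Obt.iso e).trans _ _ _ h).trans _ _ _ (Obt.iso f.symm)
  · intro h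
    exact ⟨A, B, rfl, rfl, h⟩

/-- functions on classes -/
theorem exists_lift {φ : FAlg k → ℝ} (h : Spectral k φ) : ∃ ψ : Cls k → ℝ, ∀ A, ψ (Cls.mk A) = φ A :=
  ⟨Quotient.lift φ fun _ _ ⟨e⟩ => h.iso e, fun _ => rfl⟩

theorem isPt_of_spectral {φ : FAlg k → ℝ} (h : Spectral k φ) (ψ : Cls k → ℝ)
    (hψ : ∀ A, ψ (Cls.mk A) = φ A) : IsPt (PO k) ψ where
  nonneg a := by
    induction a using Cls.ind
    rw [hψ]; exact h.nonneg _
  one := by rw [Cls.one_mk, hψ, h.point]
  zero := by rw [Cls.zero_mk, hψ]; exact h.sub _ (inferInstanceAs (Subsingleton PUnit.{1}))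
  add a b := by
    induction a using Cls.ind; induction b using Cls.ind
    rw [Cls.add_mk, hψ, hψ, hψ, h.union]
  mul a b := by
    induction a using Cls.ind; induction b using Cls.ind
    rw [Cls.mul_mk, hψ, hψ, hψ, h.product]
  mono a b hab := by
    obtain ⟨A, B, rfl, rfl, h1⟩ := hab
    rw [hψ, hψ]
    exact h.obt h1

theorem isPt_nat {S : Type 1} [CommSemiring S] {P : S → S → Prop} {φ : S → ℝ} (h : IsPt P φ)
    (n : ℕ) : φ (n : S) = n := by
  induction n with
  | zero => rw [Nat.cast_zero, h.zero, Nat.cast_zero]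
  | succ n ih => rw [Nat.cast_succ, h.add, ih, h.one, Nat.cast_succ]

theorem isPt_pow {S : Type 1} [CommSemiring S] {P : S → S → Prop} {φ : S → ℝ} (h : IsPt P φ)
    (a : S) (n : ℕ) : φ (a ^ n) = φ a ^ n := by
  induction n with
  | zero => rw [pow_zero, pow_zero, h.one]
  | succ n ih => rw [pow_succ, pow_succ, h.mul, ih]

theorem spectral_of_isPt {ψ : Cls k → ℝ} (h : IsPt (PO k) ψ) :
    Spectral k fun A => ψ (Cls.mk A) where
  nonneg A := h.nonneg _
  point := h.one
  union A B := h.add (Cls.mk A) (Cls.mk B)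
  product A B := h.mul (Cls.mk A) (Cls.mk B)
  closed A B f hf := h.mono _ _ (po_iff.mpr (Obt.closed A B f hf))
  image A B f hf := h.mono _ _ (po_iff.mpr (Obt.image A B f hf))
  degeneration A B hd := h.mono _ _ (po_iff.mpr (Obt.degeneration A B hd))
  smoothable A hs := by
    have h1 := h.mono _ _ (po_iff.mpr (Obt.smoothable A hs))
    rwa [← Cls.natCast_mk, isPt_nat h] at h1

/-- powers -/
theorem mk_pow (A : FAlg k) (n : ℕ) : Cls.mk A ^ n = Cls.mk (FAlg.of k (Pow k A n)) := by
  induction n with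
  | zero =>
    rw [pow_zero, Cls.one_mk]
    exact Cls.mk_eq (powZero k A).symm
  | succ n ih =>
    rw [pow_succ', ih, Cls.mul_mk]
    exact Cls.mk_eq (powSucc k A n).symm

end basic

section main

variable {k : Type} [Field k] [IsAlgClosed k]

/-- the invariant `mdeg` is monotone, after product with any scheme -/
theorem mdeg_tensor_le (A B : FAlg k) : mdeg k (A ⊗[k] B) ≤ mdeg k A * mdeg k B := by
  obtain ⟨D, hD⟩ := exists_fam (k := k) A
  obtain ⟨E, hE⟩ := exists_fam (k := k) B
  refine mdeg_le (Fam.join (mdeg_spec hD) (mdeg_spec hE) Algebra.TensorProduct.includeLeft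
    Algebra.TensorProduct.includeRight ?_)
  rw [eq_top_iff]
  intro x _
  induction x using TensorProduct.induction_on with
  | zero => exact Subalgebra.zero_mem _
  | add x y hx hy => exact Subalgebra.add_mem _ (hx trivial) (hy trivial)
  | tmul a b =>
    have h1 : a ⊗ₜ[k] b = (a ⊗ₜ[k] (1 : B)) * ((1 : A) ⊗ₜ[k] b) := by
      rw [Algebra.TensorProduct.tmul_mul_tmul, mul_one, one_mul]
    rw [h1]
    refine Subalgebra.mul_mem _ ?_ ?_
    · exact (le_sup_left : (Algebra.TensorProduct.includeLeft : A →ₐ[k] A ⊗[k] B).range ≤ _)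
        ⟨a, rfl⟩
    · exact (le_sup_right : (Algebra.TensorProduct.includeRight : B →ₐ[k] A ⊗[k] B).range ≤ _)
        ⟨b, rfl⟩

omit [IsAlgClosed k] in
theorem isDeg_self_dg {A B : FAlg k} (h : IsDegeneration k B A) :
    Pool.Agent.R566.DG.Dg k B A := by
  have h' : Pool.Agent.R566.DG.IsDeg k B A := h
  exact h'.dg

omit [IsAlgClosed k] in
/-- the constant family -/
theorem dg_self (C : FAlg k) : Pool.Agent.R566.DG.Dg k C C := by
  let f : k⟦X⟧ →ₐ[k] C := (Algebra.ofId k C).comp
    (AlgHom.mk (PowerSeries.constantCoeff (R := k)) (fun r => by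
      change PowerSeries.constantCoeff (algebraMap k k⟦X⟧ r) = r
      rw [PowerSeries.algebraMap_apply]
      simp))
  let π : (k⟦X⟧ ⊗[k] C) →ₐ[k] C := Algebra.TensorProduct.productMap f (AlgHom.id k C)
  refine ⟨k⟦X⟧ ⊗[k] C, inferInstance, inferInstance, 0, 0, LinearMap.id, LinearMap.id,
    π.toRingHom, inferInstance, inferInstance, ?_, ?_, ?_, ?_, ?_⟩
  · intro x y
    rw [pow_zero, one_smul]
    rfl
  · rw [pow_zero, one_smul]
    rfl
  · intro x
    rw [pow_zero, one_smul]
    rfl
  · intro x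
    refine ⟨1 ⊗ₜ x, ?_⟩
    change Algebra.TensorProduct.productMap f (AlgHom.id k C) (1 ⊗ₜ x) = x
    rw [Algebra.TensorProduct.productMap_apply_tmul, map_one, one_mul]
    rfl
  · intro r
    change Algebra.TensorProduct.productMap f (AlgHom.id k C) (r ⊗ₜ 1) = _
    rw [Algebra.TensorProduct.productMap_apply_tmul, map_one, mul_one]
    rfl

theorem mdeg_self : mdeg k k = 1 := by
  apply le_antisymm
  · exact mdeg_le fam_self
  · have h := finrank_le_mdeg (k := k) (A := k)
    rwa [Module.finrank_self] at h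

end main

end Pool.Agent.H858.AS
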