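import Pool.Agent.H858.AS.Pre
import Pool.Agent.H858.AS.Dual

/-!
# The growth rate is the maximum over the spectral points
-/

set_option autoImplicit false

namespace Pool.Agent.H858.AS

open TensorProduct PowerSeries Filter Topology
open Pool.Agent.H826R3.SM Pool.Agent.TH671.DU

/-- all lemmas on semirings -/
structure Lem : Prop where
  hA : S_A
  hB : S_B
  hC : S_C
  hD : S_D
  hE : S_E
  hF : S_F

variable {k : Type} [Field k] [IsAlgClosed k]

theorem M_pow_le (a : Cls k) (n : ℕ) : M k (a ^ n) ≤ M k a ^ n := by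
  induction n with
  | zero => rw [pow_zero, pow_zero, M_one]
  | succ n ih =>
    rw [pow_succ, pow_succ]
    exact (M_mul _ _).trans (Nat.mul_le_mul_right _ ih)

theorem le_rate {φ : FAlg k → ℝ} (h : Spectral k φ) (A : FAlg k) [Nontrivial A] :
    φ A ≤ rate k A := by
  obtain ⟨ψ, hψ⟩ := exists_lift h
  have hp := isPt_of_spectral h ψ hψ
  have h1 : ∀ n : ℕ, φ A ^ n ≤ mdeg k (Pow k A n) := by
    intro n
    rw [← hψ, ← isPt_pow hp]
    have h2 := hp.mono _ _ (po_mdeg (Cls.mk A ^ n))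
    rw [isPt_nat hp, mk_pow, M_mk] at h2
    rw [mk_pow]
    exact h2
  refine le_of_forall_pos_le_add fun η hη => ?_
  obtain ⟨C, _, hC⟩ := rate_growth (k := k) A η hη
  have hr : 0 ≤ rate k A := by
    rw [rate_eq]
    exact irate_nonneg _
  refine le_of_pow_bound (C := C) (by linarith) fun N _ => ?_
  exact (h1 N).trans (hC N)

theorem exists_max (L : Lem) (A : FAlg k) [Nontrivial A] :
    ∃ φ : FAlg k → ℝ, Spectral k φ ∧ φ A = rate k A := by
  have hr : 0 ≤ rate k A := by
    rw [rate_eq]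
    exact irate_nonneg _
  obtain ⟨ψ, hψ, h1⟩ := duality L.hA L.hB L.hC L.hD L.hF (spre (k := k)) (Cls.mk A) 1 (rate k A) hr
    (by
      intro n c x hn hc h
      rw [one_pow, mul_one] at h
      have h2 := M_po h
      rw [M_nat_mul, M_nat, mk_pow, M_mk] at h2
      have h3 := rate_pow_le (k := k) A n
      have h4 : (c : ℝ) * mdeg k (Pow k A n) ≤ x := by exact_mod_cast h2
      have h5 : (0 : ℝ) ≤ c := by positivity
      nlinarith)
  rw [hψ.one, mul_one] at h1
  exact ⟨_, spectral_of_isPt hψ, le_antisymm (le_rate (spectral_of_isPt hψ) A) h1⟩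

/-- asymptotic comparison -/
theorem comparison (L : Lem) (A B : FAlg k) :
    (∀ φ : FAlg k → ℝ, Spectral k φ → φ A ≤ φ B) ↔
      ∀ ε : ℝ, 0 < ε → ∃ N : ℕ, ∀ n ≥ N, ∃ x : ℕ, (x : ℝ) ≤ (1 + ε) ^ n ∧
        Obt k (FAlg.of k (Pow k A n)) (FAlg.of k ((Fin x → k) ⊗[k] Pow k B n)) := by
  have e0 : ∀ (n x : ℕ), Obt k (FAlg.of k (Pow k A n)) (FAlg.of k ((Fin x → k) ⊗[k] Pow k B n)) ↔
      PO k (Cls.mk A ^ n) ((x : Cls k) * Cls.mk B ^ n) := by
    intro n x
    rw [mk_pow, mk_pow, Cls.natCast_mk, Cls.mul_mk, po_iff]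
  simp only [e0]
  constructor
  · intro h ε hε
    by_cases hB : Cls.mk B = 0
    · -- then `A = 0`
      have hA : Cls.mk A = 0 := by
        by_contra hA
        have hA' : Nontrivial A := by
          rw [Cls.mk_eq_zero, not_subsingleton_iff_nontrivial] at hA
          exact hA
        obtain ⟨φ, hφ, h1⟩ := exists_max L A
        have h2 := h φ hφ
        rw [hφ.sub B (Cls.mk_eq_zero.mp hB), h1] at h2
        have h3 := finrank_le_rate (k := k) A
        have h4 : (0 : ℝ) < Module.finrank k A := by exact_mod_cast Module.finrank_pos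
        linarith
      refine ⟨1, fun n hn => ⟨0, by rw [Nat.cast_zero]; positivity, ?_⟩⟩
      rw [hA, zero_pow (by omega)]
      exact po_zero _
    by_contra hcon
    push Not at hcon
    -- `1 + ε / 2`
    obtain ⟨ψ, hψ, h1⟩ := duality L.hA L.hB L.hC L.hD L.hF (spre (k := k)) (Cls.mk A) (Cls.mk B)
      (1 + ε / 2) (by positivity) (by
        intro n c x hn hc hP
        by_contra hlt
        push Not at hlt
        obtain ⟨l, hl⟩ := L.hE (Cls k) (PO k) spre (Cls.mk A) (Cls.mk B) n c x (1 + ε / 2) (1 + ε)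
          hB hn hc (by linarith) (by linarith) hlt.le hP
        obtain ⟨n', hn', h2⟩ := hcon l
        obtain ⟨z, hz1, hz2⟩ := hl n' hn'
        exact h2 z hz1 hz2)
    have h2 := h _ (spectral_of_isPt hψ)
    have h3 : 0 < ψ (Cls.mk B) := by
      obtain ⟨r, hr⟩ := (spre (k := k)).arch 1 (Cls.mk B) hB
      have h4 := hψ.mono _ _ hr
      rw [hψ.one, hψ.mul, hψ.nat] at h4
      by_contra hneg
      push Not at hneg
      have : ψ (Cls.mk B) = 0 := le_antisymm hneg (hψ.nonneg _)
      rw [this, mul_zero] at h4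
      linarith
    nlinarith
  · intro h φ hφ
    obtain ⟨ψ, hψ'⟩ := exists_lift hφ
    have hp := isPt_of_spectral hφ ψ hψ'
    rw [← hψ', ← hψ']
    refine le_of_forall_pos_le_add fun η hη => ?_
    -- choose `ε` with `ε ψ B ≤ η`
    set b := ψ (Cls.mk B) with hb
    have hb0 : 0 ≤ b := hp.nonneg _
    obtain ⟨N, hN⟩ := h (η / (b + 1)) (by positivity)
    obtain ⟨x, hx1, hx2⟩ := hN (N + 1) (by omega)
    have h1 := hp.mono _ _ hx2
    rw [isPt_pow hp, hp.mul, isPt_nat hp, isPt_pow hp, ← hb] at h1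
    have h2 : ψ (Cls.mk A) ^ (N + 1) ≤ ((1 + η / (b + 1)) * b) ^ (N + 1) := by
      rw [mul_pow]
      exact h1.trans (mul_le_mul_of_nonneg_right hx1 (by positivity))
    have h3 := le_of_pow_le_pow_left₀ (by omega) (by positivity) h2
    refine h3.trans ?_
    have h4 : η / (b + 1) * b ≤ η := by
      rw [div_mul_eq_mul_div, div_le_iff₀ (by positivity)]
      nlinarith
    linarith

end Pool.Agent.H858.AS
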