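import Pool.Agent.H858.AS.Geo

/-!
# The relation `Obt` is a Strassen preorder
-/

set_option autoImplicit false

namespace Pool.Agent.H858.AS

open TensorProduct PowerSeries
open Pool.Agent.H826R3.SM Pool.Agent.TH671.DU

variable {k : Type} [Field k]

/-- `mdeg` on classes -/
noncomputable def M (k : Type) [Field k] : Cls k → ℕ :=
  Quotient.lift (fun A : FAlg k => mdeg k A) fun _ _ ⟨e⟩ => mdeg_congr e

theorem M_mk (A : FAlg k) : M k (Cls.mk A) = mdeg k A := rfl

variable [IsAlgClosed k]

theorem M_add (a b : Cls k) : M k (a + b) = M k a + M k b := by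
  induction a using Cls.ind with
  | _ A =>
  induction b using Cls.ind with
  | _ B =>
  rw [Cls.add_mk, M_mk, M_mk, M_mk]
  exact mdeg_prod' k A B

theorem M_mul (a b : Cls k) : M k (a * b) ≤ M k a * M k b := by
  induction a using Cls.ind with
  | _ A =>
  induction b using Cls.ind with
  | _ B =>
  rw [Cls.mul_mk, M_mk, M_mk, M_mk]
  exact mdeg_tensor_le A B

theorem M_one : M k 1 = 1 := mdeg_self

theorem M_zero : M k 0 = 0 := by
  have h := M_add (k := k) 0 0
  rw [add_zero] at h
  omega

theorem M_nat_mul (n : ℕ) (a : Cls k) : M k ((n : Cls k) * a) = n * M k a := by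
  induction n with
  | zero => rw [Nat.cast_zero, zero_mul, M_zero, zero_mul]
  | succ n ih => rw [Nat.cast_succ, add_mul, one_mul, M_add, ih, add_mul, one_mul]

theorem M_nat (n : ℕ) : M k (n : Cls k) = n := by
  have h := M_nat_mul n (1 : Cls k)
  rwa [mul_one, M_one, mul_one] at h

theorem mdeg_le_of_smoothable {A : FAlg k} (h : Smoothable k A) :
    mdeg k A ≤ Module.finrank k A :=
  mdeg_le (InSmoothable.fam ⟨A, inferInstance, inferInstance, inferInstance, h, rfl,
    AlgHom.id k A, Function.surjective_id⟩)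

theorem M_obt {A B : FAlg k} (h : Obt k A B) :
    ∀ c : Cls k, M k (Cls.mk A * c) ≤ M k (Cls.mk B * c) := by
  induction h with
  | closed A B f hf =>
    intro c
    induction c using Cls.ind with
    | _ C =>
    rw [Cls.mul_mk, Cls.mul_mk, M_mk, M_mk]
    obtain ⟨D, hD⟩ := exists_fam (k := k) (B ⊗[k] C)
    refine mdeg_le (Fam.of_surjective (mdeg_spec hD)
      (Algebra.TensorProduct.map f (AlgHom.id k C)) ?_)
    exact TensorProduct.map_surjective hf Function.surjective_id
  | image A B f hf =>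
    intro c
    induction c using Cls.ind with
    | _ C =>
    rw [Cls.mul_mk, Cls.mul_mk, M_mk, M_mk]
    obtain ⟨D, hD⟩ := exists_fam (k := k) (B ⊗[k] C)
    refine mdeg_le (Pool.Agent.R566.CV.Fam.of_injective (mdeg_spec hD)
      (Algebra.TensorProduct.map f (AlgHom.id k C)) ?_)
    exact Module.Flat.rTensor_preserves_injective_linearMap (M := C) f.toLinearMap hf
  | degeneration A B hd =>
    intro c
    induction c using Cls.ind with
    | _ C =>
    rw [Cls.mul_mk, Cls.mul_mk, M_mk, M_mk]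
    obtain ⟨D, hD⟩ := exists_fam (k := k) (B ⊗[k] C)
    exact mdeg_le (Pool.Agent.R566.DG.Fam.dg (mdeg_spec hD)
      (Pool.Agent.R566.DG.Dg.tensor (isDeg_self_dg hd) (dg_self C)))
  | smoothable A hs =>
    intro c
    rw [← Cls.natCast_mk, M_nat_mul]
    refine (M_mul _ _).trans (Nat.mul_le_mul_right _ ?_)
    rw [M_mk]
    exact mdeg_le_of_smoothable hs
  | trans A B C _ _ h1 h2 => exact fun c => (h1 c).trans (h2 c)
  | union A B C _ h1 =>
    intro c
    rw [← Cls.add_mk, ← Cls.add_mk, add_mul, add_mul, M_add, M_add]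
    exact Nat.add_le_add_right (h1 c) _
  | product A B C _ h1 =>
    intro c
    rw [← Cls.mul_mk, ← Cls.mul_mk, mul_assoc, mul_assoc]
    exact h1 _

theorem M_po {a b : Cls k} (h : PO k a b) : M k a ≤ M k b := by
  obtain ⟨A, B, rfl, rfl, h1⟩ := h
  have h2 := M_obt h1 1
  rwa [mul_one, mul_one] at h2

omit [IsAlgClosed k] in
theorem po_zero (a : Cls k) : PO k 0 a := by
  induction a using Cls.ind with
  | _ A =>
  rw [Cls.zero_mk, po_iff]
  exact Obt.closed (Cls.zeroAlg k) A
    { toFun := fun _ => 0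
      map_one' := Subsingleton.elim _ _
      map_mul' := fun _ _ => Subsingleton.elim _ _
      map_zero' := Subsingleton.elim _ _
      map_add' := fun _ _ => Subsingleton.elim _ _
      commutes' := fun _ => Subsingleton.elim _ _ } fun x => ⟨0, Subsingleton.elim _ _⟩

omit [IsAlgClosed k] in
theorem po_trans (a b c : Cls k) (h : PO k a b) (h' : PO k b c) : PO k a c := by
  obtain ⟨A, B, rfl, rfl, h1⟩ := h
  induction c using Cls.ind with
  | _ C =>
  rw [po_iff] at h' ⊢
  exact Obt.trans _ _ _ h1 h'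

omit [IsAlgClosed k] in
theorem po_add (a b c : Cls k) (h : PO k a b) : PO k (a + c) (b + c) := by
  obtain ⟨A, B, rfl, rfl, h1⟩ := h
  induction c using Cls.ind with
  | _ C =>
  rw [Cls.add_mk, Cls.add_mk, po_iff]
  exact Obt.union _ _ _ h1

omit [IsAlgClosed k] in
theorem po_mul (a b c : Cls k) (h : PO k a b) : PO k (a * c) (b * c) := by
  obtain ⟨A, B, rfl, rfl, h1⟩ := h
  induction c using Cls.ind with
  | _ C =>
  rw [Cls.mul_mk, Cls.mul_mk, po_iff]
  exact Obt.product _ _ _ h1

omit [IsAlgClosed k] in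
theorem po_nat {n m : ℕ} (h : n ≤ m) : PO k (n : Cls k) (m : Cls k) := by
  obtain ⟨d, rfl⟩ := Nat.exists_eq_add_of_le h
  have h1 := po_add _ _ (n : Cls k) (po_zero (d : Cls k))
  rw [zero_add, add_comm] at h1
  rwa [Nat.cast_add]

/-- every finite scheme is obtained from `mdeg` points -/
theorem po_mdeg (a : Cls k) : PO k a (M k a : Cls k) := by
  induction a using Cls.ind with
  | _ A =>
  obtain ⟨D, hD⟩ := exists_fam (k := k) A
  obtain ⟨D', hD', B, _, _, hfin, hs, hr, f, hf⟩ := Fam.inSmoothable (mdeg_spec hD)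
  have h1 : PO k (Cls.mk A) (Cls.mk (FAlg.of k B)) := po_iff.mpr (Obt.closed A (FAlg.of k B) f hf)
  have h2 : PO k (Cls.mk (FAlg.of k B)) (D' : Cls k) := by
    rw [← hr, Cls.natCast_mk]
    exact po_iff.mpr (Obt.smoothable (FAlg.of k B) hs)
  exact po_trans _ _ _ (po_trans _ _ _ h1 h2) (po_nat (by rw [M_mk]; exact hD'))

theorem po_one {a : Cls k} (ha : a ≠ 0) : PO k 1 a := by
  induction a using Cls.ind with
  | _ A =>
  rw [Ne, Cls.mk_eq_zero, not_subsingleton_iff_nontrivial] at ha
  rw [Cls.one_mk, po_iff]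
  obtain ⟨m, hm⟩ := Ideal.exists_maximal A
  let _ : Field (A ⧸ m) := Ideal.Quotient.field m
  have hbij : Function.Bijective (algebraMap k (A ⧸ m)) :=
    IsAlgClosed.algebraMap_bijective_of_isIntegral
  let ee : k ≃ₐ[k] (A ⧸ m) := AlgEquiv.ofBijective (Algebra.ofId k (A ⧸ m)) hbij
  exact Obt.closed (FAlg.of k k) A (ee.symm.toAlgHom.comp (Ideal.Quotient.mkₐ k m))
    (ee.symm.surjective.comp (Ideal.Quotient.mkₐ_surjective k m))

theorem spre : SPre (PO k) where
  refl a := by
    induction a using Cls.ind with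
    | _ A =>
    exact po_iff.mpr (Obt.iso AlgEquiv.refl)
  trans := po_trans
  add := po_add
  mul := po_mul
  zero := po_zero
  nat n m h := by
    have h1 := M_po h
    rwa [M_nat, M_nat] at h1
  arch a b hb := by
    refine ⟨M k a, po_trans _ _ _ (po_mdeg a) ?_⟩
    have h1 := po_mul _ _ (M k a : Cls k) (po_one hb)
    rwa [one_mul, mul_comm] at h1

end Pool.Agent.H858.AS
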